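import Pool.Agent.R536.UE.Core

/-!
Finite data coding finite epistemic models and finite action models.
-/

set_option autoImplicit false

namespace Pool.Agent.R536.UE

/-- A finite description of an epistemic model: the list of the names of its worlds, the list of
triples `(agent, source, target)` and the list of pairs `(atom, world)`. -/
abbrev ModelCode : Type := List ℕ × List (ℕ × ℕ × ℕ) × List (ℕ × ℕ)

/-- The model with agents `Fin a` and atoms `ℕ` described by a code. -/
abbrev decM (a : ℕ) (m : ModelCode) : EModel (Fin a) ℕ where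
  W := {x : ℕ // x ∈ m.1}
  R i x y := (i.1, x.1, y.1) ∈ m.2.1
  V p x := (p, x.1) ∈ m.2.2

/-- Head of a list of formulas, `atom 0` by default. -/
def hdF {a : ℕ} (s : List (Form (Fin a) ℕ)) : Form (Fin a) ℕ := s.headD (.atom 0)

/-- One step of reading a formula in postfix form: `(0, p)` is the atom `p`, `(1, _)` is negation,
`(2, _)` is conjunction, and `(k, i)` with `k ≥ 3` is the knowledge operator of the agent `i`. -/
def readStep (a : ℕ) (s : List (Form (Fin a) ℕ)) (t : ℕ × ℕ) : List (Form (Fin a) ℕ) :=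
  if t.1 = 0 then .atom t.2 :: s
  else if t.1 = 1 then .neg (hdF s) :: s.tail
  else if t.1 = 2 then .and (hdF s) (hdF s.tail) :: s.tail.tail
  else if h : t.2 < a then .K ⟨t.2, h⟩ (hdF s) :: s.tail
  else s

/-- The formula written in postfix form. -/
def readForm (a : ℕ) (c : List (ℕ × ℕ)) : Form (Fin a) ℕ := hdF (c.foldl (readStep a) [])

/-- The postfix form of a formula. -/
def writeForm {a : ℕ} : Form (Fin a) ℕ → List (ℕ × ℕ)
  | .atom p => [(0, p)]
  | .neg φ => writeForm φ ++ [(1, 0)]
  | .and φ ψ => writeForm ψ ++ writeForm φ ++ [(2, 0)]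
  | .K i φ => writeForm φ ++ [(3, i.1)]

/-- A finite description of an action model: the events are `0, ..., n - 1` where `n` is the
length of the list of preconditions (in postfix form), and the relations are given by the list of
triples `(agent, source, target)`. -/
abbrev ActionCode : Type := List (List (ℕ × ℕ)) × List (ℕ × ℕ × ℕ)

/-- The action model described by a code. -/
abbrev decA (a : ℕ) (α : ActionCode) : AModel (Fin a) ℕ where
  E := Fin α.1.length
  S i e f := (i.1, e.1, f.1) ∈ α.2
  pre e := readForm a (α.1.get e)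

theorem foldl_writeForm {a : ℕ} (φ : Form (Fin a) ℕ) (s : List (Form (Fin a) ℕ)) :
    (writeForm φ).foldl (readStep a) s = φ :: s := by
  induction φ generalizing s with
  | atom p => simp [writeForm, readStep]
  | neg φ ih => simp [writeForm, List.foldl_append, ih, readStep, hdF]
  | and φ ψ ih1 ih2 => simp [writeForm, List.foldl_append, ih1, ih2, readStep, hdF]
  | K i φ ih => simp [writeForm, List.foldl_append, ih, readStep, hdF, i.2]

/-- Every formula has a code. -/
theorem readForm_writeForm {a : ℕ} (φ : Form (Fin a) ℕ) : readForm a (writeForm φ) = φ := by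
  rw [readForm, foldl_writeForm]; rfl

/-- Every finite action model has a code. -/
theorem exists_actionCode {a : ℕ} (A : AModel (Fin a) ℕ) [Finite A.E] :
    ∃ α : ActionCode, Nonempty (AIso A (decA a α)) := by
  classical
  obtain ⟨n, ⟨e⟩⟩ := Finite.exists_equiv_fin A.E
  let P : List (List (ℕ × ℕ)) := List.ofFn (fun k => writeForm (A.pre (e.symm k)))
  let R : List (ℕ × ℕ × ℕ) := (((List.finRange a) ×ˢ ((List.finRange n) ×ˢ (List.finRange n))).filter
    (fun t => decide (A.S t.1 (e.symm t.2.1) (e.symm t.2.2)))).map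
    (fun t => (t.1.1, t.2.1.1, t.2.2.1))
  have hP : P.length = n := by simp [P]
  refine ⟨(P, R), ⟨⟨e.trans (finCongr hP.symm), ?_, ?_⟩⟩⟩
  · intro i x y
    simp only [R, List.mem_map, List.mem_filter, decide_eq_true_eq, Prod.mk.injEq,
      Equiv.trans_apply, finCongr_apply, Fin.val_cast]
    constructor
    · intro h
      exact ⟨(i, e x, e y), ⟨by simp, by simpa using h⟩, rfl, rfl, rfl⟩
    · rintro ⟨⟨j, u, v⟩, ⟨-, h⟩, h1, h2, h3⟩
      obtain rfl : j = i := Fin.ext h1
      obtain rfl : u = e x := Fin.ext h2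
      obtain rfl : v = e y := Fin.ext h3
      simpa using h
  · intro x
    simp only [List.get_eq_getElem, Equiv.trans_apply, finCongr_apply, Fin.val_cast, P,
      List.getElem_ofFn, Fin.eta, Equiv.symm_apply_apply]
    rw [readForm_writeForm]

/-- Every finite model over finitely many atoms has a code. -/
theorem exists_modelCode {a : ℕ} (M : EModel (Fin a) ℕ) [Finite M.W]
    (hV : ∃ b, ∀ p w, M.V p w → p < b) :
    ∃ m : ModelCode, Nonempty (Iso M (decM a m)) := by
  classical
  obtain ⟨n, ⟨e⟩⟩ := Finite.exists_equiv_fin M.W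
  obtain ⟨b, hb⟩ := hV
  let R : List (ℕ × ℕ × ℕ) := (((List.finRange a) ×ˢ ((List.finRange n) ×ˢ (List.finRange n))).filter
    (fun t => decide (M.R t.1 (e.symm t.2.1) (e.symm t.2.2)))).map
    (fun t => (t.1.1, t.2.1.1, t.2.2.1))
  let V : List (ℕ × ℕ) := (((List.range b) ×ˢ (List.finRange n)).filter
    (fun t => decide (M.V t.1 (e.symm t.2)))).map (fun t => (t.1, t.2.1))
  refine ⟨(List.range n, R, V), ⟨⟨e.trans
    ⟨fun k => ⟨k.1, List.mem_range.2 k.2⟩, fun x => ⟨x.1, List.mem_range.1 x.2⟩,
      fun _ => rfl, fun _ => rfl⟩, ?_, ?_⟩⟩⟩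
  · intro i x y
    simp only [R, List.mem_map, List.mem_filter, decide_eq_true_eq, Prod.mk.injEq,
      Equiv.trans_apply, Equiv.coe_fn_mk]
    constructor
    · intro h
      exact ⟨(i, e x, e y), ⟨by simp, by simpa using h⟩, rfl, rfl, rfl⟩
    · rintro ⟨⟨j, u, v⟩, ⟨-, h⟩, h1, h2, h3⟩
      obtain rfl : j = i := Fin.ext h1
      obtain rfl : u = e x := Fin.ext h2
      obtain rfl : v = e y := Fin.ext h3
      simpa using h
  · intro p x
    simp only [V, List.mem_map, List.mem_filter, decide_eq_true_eq, Prod.mk.injEq,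
      Equiv.trans_apply, Equiv.coe_fn_mk]
    constructor
    · intro h
      exact ⟨(p, e x), ⟨by simpa using hb p x h, by simpa using h⟩, rfl, rfl⟩
    · rintro ⟨⟨q, u⟩, ⟨-, h⟩, rfl, h2⟩
      obtain rfl : u = e x := Fin.ext h2
      simpa using h

/-! ### The code of the initial model -/

/-- The names of the worlds. -/
def lab {K n : ℕ} : Wd K n 0 → ℕ
  | .root => 0
  | .mrk m => 1 + m.1
  | .elt i => K + 3 + i.1
  | .ctr _ => 0

/-- The pairs in the relation. -/
def baseE (K : ℕ) (w : List ℕ) : List (ℕ × ℕ) :=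
  (List.range (K + 3 + w.length)).map (fun x => (0, x)) ++
  (List.range w.length).flatMap (fun i => [(K + 3 + i, 0), (K + 3 + i, 1 + w.getD i 0)] ++
    (List.range i).map (fun j => (K + 3 + i, K + 3 + j)))

/-- The code of the initial model. -/
def codeN (K a : ℕ) (w : List ℕ) : ModelCode :=
  (List.range (K + 3 + w.length),
    (List.range a).flatMap (fun g => (baseE K w).map (fun e => (g, e.1, e.2))),
    (List.range (K + 2)).map (fun m => (m, 1 + m)))

theorem lab_lt {K n : ℕ} (x : Wd K n 0) : lab x < K + 3 + n := by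
  match x with
  | .root => simp only [lab]; omega
  | .mrk m => simp only [lab]; have := m.2; omega
  | .elt i => simp only [lab]; have := i.2; omega
  | .ctr j => exact j.elim0

theorem lab_inj {K n : ℕ} {x y : Wd K n 0} (h : lab x = lab y) : x = y := by
  match x, y, h with
  | .ctr j, _, _ => exact j.elim0
  | _, .ctr j, _ => exact j.elim0
  | .root, .root, _ => rfl
  | .root, .mrk m, h => simp only [lab] at h; omega
  | .root, .elt m, h => simp only [lab] at h; omega
  | .mrk m, .root, h => simp only [lab] at h; omega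
  | .elt m, .root, h => simp only [lab] at h; omega
  | .mrk m, .mrk m', h =>
    simp only [lab] at h
    have : m = m' := Fin.ext (by omega)
    rw [this]
  | .elt m, .elt m', h =>
    simp only [lab] at h
    have : m = m' := Fin.ext (by omega)
    rw [this]
  | .mrk m, .elt i, h => simp only [lab] at h; have := m.2; omega
  | .elt i, .mrk m, h => simp only [lab] at h; have := m.2; omega

theorem lab_surj {K n : ℕ} {k : ℕ} (h : k < K + 3 + n) : ∃ x : Wd K n 0, lab x = k := by
  by_cases h0 : k = 0
  · exact ⟨.root, h0.symm⟩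
  · by_cases h1 : k < K + 3
    · exact ⟨.mrk ⟨k - 1, by omega⟩, by simp only [lab]; omega⟩
    · exact ⟨.elt ⟨k - (K + 3), by omega⟩, by simp only [lab]; omega⟩

theorem mem_baseE {K : ℕ} (w : List (Fin K)) (x y : Wd K w.length 0) :
    (lab x, lab y) ∈ baseE K (w.map Fin.val) ↔ rel w 0 x y := by
  have hx := lab_lt x
  have hy := lab_lt y
  simp only [baseE, List.mem_append, List.mem_map, List.mem_range, List.mem_flatMap,
    List.mem_cons, List.not_mem_nil, or_false, Prod.mk.injEq, List.length_map]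
  match x, y, hx, hy with
  | .ctr j, _, _, _ => exact j.elim0
  | _, .ctr j, _, _ => exact j.elim0
  | .root, y, hx, hy =>
    simp only [rel, iff_true]
    exact Or.inl ⟨lab y, hy, rfl, rfl⟩
  | .mrk m, y, hx, hy =>
    simp only [rel, iff_false]
    rintro (⟨z, -, h1, -⟩ | ⟨i, hi, h | ⟨j, hj, h1, -⟩⟩)
    · simp only [lab] at h1; omega
    · have := m.2
      simp only [lab] at h
      omega
    · have := m.2
      simp only [lab] at h1
      omega
  | .elt k, .root, hx, hy =>
    simp only [rel, iff_true]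
    exact Or.inr ⟨k.1, k.2, Or.inl (Or.inl ⟨rfl, rfl⟩)⟩
  | .elt k, .mrk m, hx, hy =>
    have hm := m.2
    have hk : (w.map Fin.val).getD k.1 0 = (w.get k).1 := by
      rw [List.getD_eq_getElem?_getD, List.getElem?_map, List.getElem?_eq_getElem k.2]
      rfl
    simp only [rel, lab]
    constructor
    · rintro (⟨z, -, h1, -⟩ | ⟨i, hi, h | ⟨j, hj, h1, h2⟩⟩)
      · omega
      · have hik : k.1 = i := by omega
        subst hik
        rw [hk] at h
        omega
      · omega
    · intro h
      exact Or.inr ⟨k.1, k.2, Or.inl (Or.inr ⟨rfl, by rw [hk, h]⟩)⟩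
  | .elt k, .elt l, hx, hy =>
    simp only [rel, lab]
    constructor
    · rintro (⟨z, -, h1, -⟩ | ⟨i, hi, h | ⟨j, hj, h1, h2⟩⟩)
      · omega
      · have hi' : i < (w.map Fin.val).length := by simpa using hi
        have hlt : (w.map Fin.val).getD i 0 < K := by
          rw [List.getD_eq_getElem?_getD, List.getElem?_map, List.getElem?_eq_getElem hi]
          exact (w[i]).2
        omega
      · omega
    · intro h
      exact Or.inr ⟨k.1, k.2, Or.inr ⟨l.1, h, rfl, rfl⟩⟩

/-- Names of worlds as an equivalence. -/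
noncomputable def labEquiv (K n : ℕ) : Wd K n 0 ≃ {x : ℕ // x ∈ List.range (K + 3 + n)} :=
  Equiv.ofBijective (fun x => ⟨lab x, List.mem_range.2 (lab_lt x)⟩) (by
    constructor
    · intro x y h
      exact lab_inj (congrArg Subtype.val h)
    · rintro ⟨k, hk⟩
      obtain ⟨x, hx⟩ := lab_surj (List.mem_range.1 hk)
      exact ⟨x, Subtype.ext hx⟩)

theorem mem_atoms {K n : ℕ} (p : ℕ) (x : Wd K n 0) :
    (p, lab x) ∈ (List.range (K + 2)).map (fun m => (m, 1 + m)) ↔ val p x := by
  simp only [List.mem_map, List.mem_range, Prod.mk.injEq]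
  match x with
  | .ctr j => exact j.elim0
  | .root =>
    simp only [lab, val, iff_false]
    rintro ⟨m, hm, rfl, h⟩; omega
  | .elt i =>
    simp only [lab, val, iff_false]
    rintro ⟨m, hm, rfl, h⟩; omega
  | .mrk m =>
    simp only [lab, val]
    constructor
    · rintro ⟨m', hm, rfl, h⟩; omega
    · rintro rfl; exact ⟨m.1, m.2, rfl, rfl⟩

/-- The code describes the initial model. -/
noncomputable def codeNIso (K a : ℕ) (w : List (Fin K)) :
    Iso (mdl (Fin a) w 0) (decM a (codeN K a (w.map Fin.val))) where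
  e := (labEquiv K w.length).trans (Equiv.subtypeEquivRight (by
    intro x
    simp only [codeN, List.length_map]))
  R_iff i x y := by
    change rel w 0 x y ↔ (i.1, lab x, lab y) ∈ _
    simp only [codeN, List.mem_flatMap, List.mem_map, List.mem_range, Prod.mk.injEq]
    rw [← mem_baseE w x y]
    constructor
    · intro h
      exact ⟨i.1, i.2, _, h, rfl, rfl, rfl⟩
    · rintro ⟨g, -, ⟨u, v⟩, h, -, h1, h2⟩
      rw [← h1, ← h2]
      exact h
  V_iff p x := (mem_atoms p x).symm

/-! ### The code of a translation -/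

/-- The one-agent model described by a code. -/
abbrev decU (m : ModelCode) : EModel Unit ℕ where
  W := {x : ℕ // x ∈ m.1}
  R _ x y := (0, x.1, y.1) ∈ m.2.1
  V p x := (p, x.1) ∈ m.2.2

/-- Naming of the worlds of a translation. -/
def enc3 (t : ℕ × ℕ × ℕ) : ℕ := Nat.pair t.1 (Nat.pair t.2.1 t.2.2)

theorem enc3_inj {s t : ℕ × ℕ × ℕ} (h : enc3 s = enc3 t) : s = t := by
  simp only [enc3, Nat.pair_eq_pair] at h
  exact Prod.ext h.1 (Prod.ext h.2.1 h.2.2)

/-- The triples coding the pairs of worlds. -/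
def trE (m : ModelCode) : List (ℕ × ℕ × ℕ) :=
  (m.2.1.filter (fun e => decide (e.1 = 0 ∧ e.2.1 ∈ m.1 ∧ e.2.2 ∈ m.1))).map
    (fun e => (1, e.2.1, e.2.2))

/-- The triples coding the worlds of the translation. -/
def trW (m : ModelCode) : List (ℕ × ℕ × ℕ) := m.1.map (fun w => (0, w, w)) ++ trE m

/-- The code of the translation. -/
def codeT (b : ℕ) (m : ModelCode) : ModelCode :=
  ((trW m).map enc3,
    (List.range b).flatMap (fun j => (trW m).flatMap (fun x =>
      ((trW m).filter (fun y => decide (if j = 0 then x.2.1 = y.2.1 else x.2.2 = y.2.2))).map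
        (fun y => (j, enc3 x, enc3 y)))),
    (trE m).map (fun e => (0, enc3 e)) ++ m.2.2.map (fun q => (q.1 + 1, enc3 (0, q.2, q.2))))

theorem mem_trE {m : ModelCode} {t : ℕ × ℕ × ℕ} :
    t ∈ trE m ↔ t.1 = 1 ∧ (0, t.2.1, t.2.2) ∈ m.2.1 ∧ t.2.1 ∈ m.1 ∧ t.2.2 ∈ m.1 := by
  simp only [trE, List.mem_map, List.mem_filter, decide_eq_true_eq]
  constructor
  · rintro ⟨⟨a, x, y⟩, ⟨h1, h2, h3, h4⟩, rfl⟩
    simp only at h2 h3 h4
    subst h2
    exact ⟨rfl, h1, h3, h4⟩
  · rintro ⟨h1, h2, h3, h4⟩
    exact ⟨(0, t.2.1, t.2.2), ⟨h2, rfl, h3, h4⟩, by rw [← h1]⟩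

/-- The triple of a world of the translation. -/
def trip (m : ModelCode) : (decU m).W ⊕ {x : (decU m).W × (decU m).W // (decU m).R () x.1 x.2} →
    ℕ × ℕ × ℕ
  | .inl w => (0, w.1, w.1)
  | .inr x => (1, x.1.1.1, x.1.2.1)

theorem trip_mem {m : ModelCode} (x) : trip m x ∈ trW m := by
  rcases x with x | x
  · exact List.mem_append_left _ (List.mem_map.2 ⟨x.1, x.2, rfl⟩)
  · exact List.mem_append_right _ (mem_trE.2 ⟨rfl, x.2, x.1.1.2, x.1.2.2⟩)

theorem trip_inj {m : ModelCode} {x y} (h : trip m x = trip m y) : x = y := by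
  rcases x with x | ⟨⟨x, x'⟩, hx⟩ <;> rcases y with y | ⟨⟨y, y'⟩, hy⟩
  · simp only [trip, Prod.mk.injEq] at h
    exact congrArg Sum.inl (Subtype.ext h.2.1)
  · simp [trip] at h
  · simp [trip] at h
  · simp only [trip, Prod.mk.injEq] at h
    exact congrArg Sum.inr (Subtype.ext (Prod.ext (Subtype.ext h.2.1) (Subtype.ext h.2.2)))

theorem trip_surj {m : ModelCode} {t : ℕ × ℕ × ℕ} (h : t ∈ trW m) : ∃ x, trip m x = t := by
  rcases List.mem_append.1 h with h | h
  · obtain ⟨w, hw, rfl⟩ := List.mem_map.1 h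
    exact ⟨.inl ⟨w, hw⟩, rfl⟩
  · obtain ⟨h1, h2, h3, h4⟩ := mem_trE.1 h
    exact ⟨.inr ⟨(⟨t.2.1, h3⟩, ⟨t.2.2, h4⟩), h2⟩, by simp only [trip, ← h1]⟩

/-- Worlds of the translation. -/
noncomputable def tripEquiv (m : ModelCode) :
    (decU m).W ⊕ {x : (decU m).W × (decU m).W // (decU m).R () x.1 x.2} ≃
      {x : ℕ // x ∈ (trW m).map enc3} :=
  Equiv.ofBijective (fun x => ⟨enc3 (trip m x), List.mem_map.2 ⟨_, trip_mem x, rfl⟩⟩) (by
    constructor
    · intro x y h
      exact trip_inj (enc3_inj (congrArg Subtype.val h))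
    · rintro ⟨k, hk⟩
      obtain ⟨t, ht, rfl⟩ := List.mem_map.1 hk
      obtain ⟨x, hx⟩ := trip_surj ht
      exact ⟨x, Subtype.ext (congrArg enc3 hx)⟩)

/-- The code describes the translation. -/
noncomputable def codeTIso (b : ℕ) (hb : 0 < b) (m : ModelCode) :
    Iso (tr (⟨0, hb⟩ : Fin b) (decU m)) (decM b (codeT b m)) where
  e := tripEquiv m
  R_iff j x y := by
    change trRel _ j x y ↔ (j.1, enc3 (trip m x), enc3 (trip m y)) ∈ _
    simp only [codeT, List.mem_flatMap, List.mem_map, List.mem_range, Prod.mk.injEq,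
      List.mem_filter, decide_eq_true_eq]
    have h1 : (trip m x).2.1 = (src x).1 := by rcases x with x | x <;> rfl
    have h2 : (trip m y).2.1 = (src y).1 := by rcases y with x | x <;> rfl
    have h3 : (trip m x).2.2 = (tgt x).1 := by rcases x with x | x <;> rfl
    have h4 : (trip m y).2.2 = (tgt y).1 := by rcases y with x | x <;> rfl
    have hj : (j = ⟨0, hb⟩) ↔ j.1 = 0 := by rw [Fin.ext_iff]
    constructor
    · intro h
      refine ⟨j.1, j.2, trip m x, trip_mem x, trip m y, ⟨trip_mem y, ?_⟩, rfl, rfl, rfl⟩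
      rw [h1, h2, h3, h4]
      unfold trRel at h
      simp only [hj] at h
      split_ifs with h5
      · rw [if_pos h5] at h; rw [h]
      · rw [if_neg h5] at h; rw [h]
    · rintro ⟨j', -, s, hs, t, ⟨ht, h⟩, rfl, h6, h7⟩
      have h6' := enc3_inj h6
      have h7' := enc3_inj h7
      subst h6' h7'
      rw [h1, h2, h3, h4] at h
      unfold trRel
      simp only [hj]
      split_ifs with h5
      · rw [if_pos h5] at h; exact Subtype.ext h
      · rw [if_neg h5] at h; exact Subtype.ext h
  V_iff p x := by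
    change trVal _ p x ↔ (p, enc3 (trip m x)) ∈ _
    simp only [codeT, List.mem_append, List.mem_map, Prod.mk.injEq]
    rcases x with x | x
    · constructor
      · rintro ⟨q, rfl, h⟩
        exact Or.inr ⟨(q, x.1), h, rfl, rfl⟩
      · rintro (⟨t, ht, -, h⟩ | ⟨⟨q, y⟩, h, rfl, h2⟩)
        · have h' := enc3_inj h
          subst h'
          have := (mem_trE.1 ht).1
          simp [trip] at this
        · have h' := enc3_inj h2
          simp only [trip, Prod.mk.injEq, true_and] at h'
          refine ⟨q, rfl, ?_⟩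
          change (q, x.1) ∈ m.2.2
          rw [← h'.1]
          exact h
    · constructor
      · rintro h
        change p = 0 at h
        exact Or.inl ⟨_, mem_trE.2 ⟨rfl, x.2, x.1.1.2, x.1.2.2⟩, h.symm, rfl⟩
      · rintro (⟨t, ht, h, -⟩ | ⟨⟨q, y⟩, h, rfl, h2⟩)
        · exact h.symm
        · have h' := enc3_inj h2
          simp [trip] at h'

/-- Reading a code as a one-agent model. -/
def decUIso (m : ModelCode) {K : ℕ} {w : List (Fin K)}
    (h : Iso (mdl (Fin 1) w 0) (decM 1 m)) : Iso (mdl Unit w 0) (decU m) where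
  e := h.e
  R_iff _ x y := h.R_iff 0 x y
  V_iff p x := h.V_iff p x

end Pool.Agent.R536.UE
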