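import Pool.Agent.R536.UE.Code
import Pool.Agent.Helper322.LT.QLink

/-!
Computability of the reduction.
-/

set_option autoImplicit false

namespace Pool.Agent.R536.UE

open Primrec

/-! ### A universal queue system with computable starting words -/

section

open Turing StateTransition Relation Pool.Agent.Helper322.LT Pool.Agent.Helper322.LT.Queue

/-- Halting of the queue system is reaching the empty word. -/
theorem eval_qf_iff {K : ℕ} (Q : Fin K → Fin K → List (Fin K)) (w : List (Fin K)) :
    (StateTransition.eval (qf Q) w).Dom ↔ ∃ n, (qstep Q)^[n] w = [] := by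
  have key : ∀ w : List (Fin K), w ≠ [] → qf Q w = some (qstep Q w) := by
    intro w hw
    match w, hw with
    | [x], _ => rfl
    | x :: y :: t, _ => rfl
  constructor
  · intro hd
    obtain ⟨b, hb⟩ := Part.dom_iff_mem.1 hd
    obtain ⟨hr, hn⟩ := StateTransition.mem_eval.1 hb
    have hb0 : b = [] := by
      by_contra h
      rw [key b h] at hn
      cases hn
    subst hb0
    clear hb hn hd
    induction hr using ReflTransGen.head_induction_on with
    | refl => exact ⟨0, rfl⟩
    | @head a c hac _ ih =>
      obtain ⟨n, hn⟩ := ih
      refine ⟨n + 1, ?_⟩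
      have hane : a ≠ [] := by
        rintro rfl
        cases hac
      have : c = qstep Q a := by
        have h1 := key a hane
        have h2 : qf Q a = some c := hac
        rw [h1] at h2
        exact (Option.some.inj h2).symm
      rw [Function.iterate_succ_apply, ← this]
      exact hn
  · rintro ⟨n, hn⟩
    have : Reaches (qf Q) w [] := by
      induction n generalizing w with
      | zero =>
        have : w = [] := hn
        rw [this]
        exact ReflTransGen.refl
      | succ n ih =>
        by_cases hw : w = []
        · rw [hw]; exact ReflTransGen.refl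
        · exact ReflTransGen.head (by rw [key w hw]; rfl) (ih _ hn)
    exact Part.dom_iff_mem.2 ⟨[], StateTransition.mem_eval.2 ⟨this, rfl⟩⟩

theorem universal_word : ∃ (K : ℕ) (Q : Fin K → Fin K → List (Fin K))
    (t : ℕ → List (Fin K)), Computable (fun n => (t n).map Fin.val) ∧
      ∀ n, (∃ m, (qstep Q)^[m] (t n) = []) ↔ (Univ.u n).Dom := by
  classical
  obtain ⟨Λ, i1, i2, M, hM⟩ := Univ.exists_machine
  let S := Queue.Sym (TM2to1.Γ' PartrecToTM2.K' (fun _ => PartrecToTM2.Γ')) Λ
  have fK : Finite PartrecToTM2.K' := by
    refine Finite.of_injective (fun k : PartrecToTM2.K' => match k with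
      | .main => (0 : Fin 4)
      | .rev => 1
      | .aux => 2
      | .stack => 3) ?_
    intro a b h
    cases a <;> cases b <;> simp_all
  have fG : Finite (TM2to1.Γ' PartrecToTM2.K' (fun _ => PartrecToTM2.Γ')) :=
    inferInstanceAs (Finite (Bool × (PartrecToTM2.K' → Option PartrecToTM2.Γ')))
  have fS : Finite S := inferInstanceAs (Finite (Queue.Sym _ _))
  let _ : Fintype S := Fintype.ofFinite S
  have hne : Nonempty S := ⟨Queue.Sym.mark⟩
  let e := Fintype.equivFin S
  let P : S → S → List S := Queue.prod M
  let tape : ℕ → List (TM2to1.Γ' PartrecToTM2.K' (fun _ => PartrecToTM2.Γ')) := fun n =>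
    Univ.sym true .cons :: (PartrecToTM2.trNat n).reverse.map (Univ.sym false)
  refine ⟨Fintype.card S, mapP P e, fun n => (initWord (tape n)).map e, ?_, ?_⟩
  · -- computability
    let c : S → ℕ := fun z => (e z : ℕ)
    have hnum : ∀ w : List S, (w.map e).map Fin.val = w.map c := by
      intro w
      simp [c]
    simp only [hnum]
    have hw : Computable (fun n => (initWord (tape n)).map c) := by
      have hd := Univ.digits_computable (fun a => c (Queue.Sym.cell (Univ.sym false a)))
      have : (fun n => (initWord (tape n)).map c) = fun n =>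
          (if (((PartrecToTM2.trNat n).map
              (fun a => c (Queue.Sym.cell (Univ.sym false a)))).length + 1) % 2 = 0 then
            [c (Queue.Sym.mark), c (Queue.Sym.head default (Univ.sym true .cons))]
          else [c (Queue.Sym.mark), c (Queue.Sym.cell default),
            c (Queue.Sym.head default (Univ.sym true .cons))]) ++
          ((PartrecToTM2.trNat n).map
            (fun a => c (Queue.Sym.cell (Univ.sym false a)))).reverse := by
        funext n
        simp only [tape, initWord, List.length_cons, List.length_map, List.length_reverse]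
        split_ifs <;> simp [Function.comp_def]
      rw [this]
      have hlen := Computable.list_length.comp hd
      have hmod : Computable (fun n : ℕ => ((((PartrecToTM2.trNat n).map
              (fun a => c (Queue.Sym.cell (Univ.sym false a)))).length + 1) % 2)) :=
        (Primrec.nat_mod.comp (Primrec.succ.comp Primrec.id) (Primrec.const 2)).to_comp.comp hlen
      have hite : Computable (fun n : ℕ => (if (((PartrecToTM2.trNat n).map
              (fun a => c (Queue.Sym.cell (Univ.sym false a)))).length + 1) % 2 = 0 then
            [c (Queue.Sym.mark), c (Queue.Sym.head default (Univ.sym true .cons))]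
          else [c (Queue.Sym.mark), c (Queue.Sym.cell default),
            c (Queue.Sym.head default (Univ.sym true .cons))])) := by
        have hp : Primrec (fun m : ℕ => if m = 0 then
            [c (Queue.Sym.mark), c (Queue.Sym.head default (Univ.sym true .cons))]
          else [c (Queue.Sym.mark), c (Queue.Sym.cell default),
            c (Queue.Sym.head default (Univ.sym true .cons))]) :=
          Primrec.ite (PrimrecRel.comp Primrec.eq Primrec.id (Primrec.const 0))
            (Primrec.const _) (Primrec.const _)
        exact hp.to_comp.comp hmod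
      exact Computable.list_append.comp hite (Computable.list_reverse.comp hd)
    exact hw
  · intro n
    rw [← eval_qf_iff, eval_map_iff,
      eval_rep_iff M (rep_init (tape n) (by simp [tape])), hM]

/-- Every recursively enumerable predicate reduces to the domain of `u`. -/
theorem re_reduce (p : ℕ → Prop) (hp : REPred p) :
    ∃ g : ℕ → ℕ, Computable g ∧ ∀ n, p n ↔ (Univ.u (g n)).Dom := by
  classical
  have h1 : Partrec (fun m : ℕ => (Part.assert (p m.unpair.1) fun _ => Part.some (0 : ℕ))) := by
    have h2 : Partrec (fun m : ℕ => (Part.assert (p m.unpair.1) fun _ => Part.some ())) :=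
      hp.comp (Computable.fst.comp Computable.unpair)
    have h3 := h2.map (g := fun _ _ => (0 : ℕ)) (Computable.const 0).to₂
    refine h3.of_eq ?_
    intro m
    by_cases hm : p m.unpair.1
    · rw [Part.assert_pos hm, Part.assert_pos hm]
      rfl
    · rw [Part.assert_neg hm, Part.assert_neg hm]
      exact Part.map_none _
  obtain ⟨c, hc⟩ := Nat.Partrec.Code.exists_code.1 (Partrec.nat_iff.1 h1)
  refine ⟨fun n => Encodable.encode (Nat.Partrec.Code.curry c n), ?_, ?_⟩
  · exact Computable.encode.comp ((Nat.Partrec.Code.primrec₂_curry.comp
      (Primrec.const c) Primrec.id).to_comp)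
  · intro n
    unfold Univ.u
    rw [Denumerable.ofNat_encode, Nat.Partrec.Code.eval_curry, hc]
    have e1 : (Nat.unpair (Nat.pair n 0)).1 = n := by rw [Nat.unpair_pair]
    constructor
    · intro h
      have h' : p (Nat.unpair (Nat.pair n 0)).1 := by rw [e1]; exact h
      beta_reduce
      rw [Part.assert_pos h']
      trivial
    · intro h
      by_contra h'
      have h'' : ¬ p (Nat.unpair (Nat.pair n 0)).1 := by rw [e1]; exact h'
      beta_reduce at h
      rw [Part.assert_neg h''] at h
      exact h

end

/-! ### Primitive recursiveness of the codes -/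

theorem primrec_mem {α β : Type} [Primcodable α] [Primcodable β] [DecidableEq β]
    {f : α → β} {g : α → List β}
    (hf : Primrec f) (hg : Primrec g) : PrimrecPred (fun a => f a ∈ g a) := by
  have h : PrimrecRel (fun (x b : β) => x = b) := Primrec.eq
  refine (h.exists_mem_list.comp hg hf).of_eq ?_
  intro a
  constructor
  · rintro ⟨x, hx, rfl⟩
    exact hx
  · intro h
    exact ⟨_, h, rfl⟩

/-- Filtering with parameters. -/
theorem primrec_filter {α β : Type} [Primcodable α] [Primcodable β]
    {p : α → β → Prop} [∀ a b, Decidable (p a b)] {f : α → List β}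
    (hf : Primrec f) (hp : PrimrecPred (fun q : α × β => p q.1 q.2)) :
    Primrec (fun a => (f a).filter (fun b => decide (p a b))) := by
  have h1 : Primrec (fun a => (f a).filterMap (fun b => if p a b then some b else none)) :=
    listFilterMap hf (Primrec.ite hp (option_some.comp snd) (const none)).to₂
  refine h1.of_eq ?_
  intro a
  induction f a with
  | nil => rfl
  | cons x l ih =>
    by_cases h : p a x
    · simp [h, ih]
    · simp [h, ih]

theorem primrec_baseE (K : ℕ) : Primrec (baseE K) := by
  unfold baseE
  refine list_append.comp ?_ ?_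
  · exact list_map (list_range.comp (nat_add.comp (const _) list_length))
      ((Primrec.const 0).pair snd).to₂
  · refine list_flatMap (list_range.comp list_length) ?_
    refine list_append.comp ?_ ?_
    · have h1 : Primrec (fun p : List ℕ × ℕ => K + 3 + p.2) := nat_add.comp (const _) snd
      have h2 : Primrec (fun p : List ℕ × ℕ => 1 + p.1.getD p.2 0) :=
        nat_add.comp (const _) ((list_getD 0).comp fst snd)
      exact list_cons.comp (h1.pair (const 0)) (list_cons.comp (h1.pair h2) (const []))
    · have h1 : Primrec (fun p : (List ℕ × ℕ) × ℕ => K + 3 + p.1.2) :=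
        nat_add.comp (const _) (snd.comp fst)
      have h2 : Primrec (fun p : (List ℕ × ℕ) × ℕ => K + 3 + p.2) :=
        nat_add.comp (const _) snd
      exact list_map (list_range.comp snd) (h1.pair h2).to₂

theorem primrec_codeN (K a : ℕ) : Primrec (codeN K a) := by
  unfold codeN
  refine Primrec.pair ?_ (Primrec.pair ?_ ?_)
  · exact list_range.comp (nat_add.comp (const _) list_length)
  · refine list_flatMap (const _) ?_
    refine list_map ((primrec_baseE K).comp fst) ?_
    exact Primrec.pair (snd.comp fst) (Primrec.pair (fst.comp snd) (snd.comp snd))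
  · exact const _

theorem primrec_enc3 : Primrec enc3 := by
  unfold enc3
  exact Primrec₂.natPair.comp fst (Primrec₂.natPair.comp (fst.comp snd) (snd.comp snd))

theorem primrec_trE : Primrec trE := by
  unfold trE
  refine list_map (primrec_filter (p := fun (m : ModelCode) (e : ℕ × ℕ × ℕ) =>
    e.1 = 0 ∧ e.2.1 ∈ m.1 ∧ e.2.2 ∈ m.1) (fst.comp snd) ?_) ?_
  · refine PrimrecPred.and ?_ (PrimrecPred.and ?_ ?_)
    · exact Primrec.eq.comp (fst.comp snd) (const 0)
    · exact primrec_mem (fst.comp (snd.comp snd)) (fst.comp fst)
    · exact primrec_mem (snd.comp (snd.comp snd)) (fst.comp fst)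
  · exact Primrec.pair (const 1) (Primrec.pair (fst.comp (snd.comp snd)) (snd.comp (snd.comp snd)))

theorem primrec_trW : Primrec trW := by
  unfold trW
  refine list_append.comp ?_ primrec_trE
  exact list_map fst (Primrec.pair (const 0) (Primrec.pair snd snd))

theorem primrec_codeT (b : ℕ) : Primrec (codeT b) := by
  unfold codeT
  refine Primrec.pair ?_ (Primrec.pair ?_ ?_)
  · exact list_map primrec_trW (primrec_enc3.comp snd)
  · refine list_flatMap (const _) ?_
    refine list_flatMap (primrec_trW.comp fst) ?_
    refine list_map (primrec_filter (p := fun (q : (ModelCode × ℕ) × (ℕ × ℕ × ℕ)) (y : ℕ × ℕ × ℕ) =>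
      if q.1.2 = 0 then q.2.2.1 = y.2.1 else q.2.2.2 = y.2.2)
      (primrec_trW.comp (fst.comp fst)) ?_) ?_
    · have h1 : PrimrecPred (fun q : ((ModelCode × ℕ) × (ℕ × ℕ × ℕ)) × (ℕ × ℕ × ℕ) =>
          (q.1.1.2 = 0 ∧ q.1.2.2.1 = q.2.2.1) ∨ (¬ q.1.1.2 = 0 ∧ q.1.2.2.2 = q.2.2.2)) := by
        have h0 : PrimrecPred (fun q : ((ModelCode × ℕ) × (ℕ × ℕ × ℕ)) × (ℕ × ℕ × ℕ) =>
            q.1.1.2 = 0) := Primrec.eq.comp (snd.comp (fst.comp fst)) (const 0)
        refine PrimrecPred.or (PrimrecPred.and h0 ?_) (PrimrecPred.and h0.not ?_)
        · exact Primrec.eq.comp (fst.comp (snd.comp (snd.comp fst))) (fst.comp (snd.comp snd))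
        · exact Primrec.eq.comp (snd.comp (snd.comp (snd.comp fst))) (snd.comp (snd.comp snd))
      refine h1.of_eq ?_
      intro q
      by_cases h : q.1.1.2 = 0 <;> simp [h]
    · exact Primrec.pair (snd.comp (fst.comp fst)) (Primrec.pair
        (primrec_enc3.comp (snd.comp fst)) (primrec_enc3.comp snd))
  · refine list_append.comp ?_ ?_
    · exact list_map primrec_trE (Primrec.pair (const 0) (primrec_enc3.comp snd))
    · refine list_map (snd.comp snd) ?_
      refine Primrec.pair (succ.comp (fst.comp snd)) ?_
      exact primrec_enc3.comp (Primrec.pair (const 0) (Primrec.pair (snd.comp snd) (snd.comp snd)))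

end Pool.Agent.R536.UE
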