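import Pool.Agent.R536.UE.Trans

/-!
The update evolution of the coding model is finite modulo bisimulation exactly when the queue
system reaches the empty word.
-/

set_option autoImplicit false

namespace Pool.Agent.R536.UE

variable {I : Type} {K : ℕ}

instance finiteWd {n c : ℕ} : Finite (Wd K n c) := by
  let f : Wd K n c → Unit ⊕ Fin n ⊕ Fin c ⊕ Fin (K + 2) := fun x => match x with
    | .root => .inl ()
    | .elt i => .inr (.inl i)
    | .ctr i => .inr (.inr (.inl i))
    | .mrk m => .inr (.inr (.inr m))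
  refine Finite.of_injective f ?_
  intro x y h
  cases x <;> cases y <;> simp_all [f]

instance finiteEv {L : ℕ} : Finite (Ev K L) := by
  let f : Ev K L → (Fin L × Fin K) ⊕ Fin (K + 2) ⊕ Fin 4 := fun x => match x with
    | .keep => .inr (.inr 0)
    | .new j x => .inl (j, x)
    | .newc => .inr (.inr 1)
    | .ke => .inr (.inr 2)
    | .kc => .inr (.inr 3)
    | .km m => .inr (.inl m)
  refine Finite.of_injective f ?_
  intro x y h
  cases x <;> cases y <;> simp_all [f]

/-- The sequence of configurations. -/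
def conf (Q : Fin K → Fin K → List (Fin K)) (w : List (Fin K)) : ℕ → List (Fin K) × ℕ
  | 0 => (w, 0)
  | n + 1 => (qstep Q (conf Q w n).1, nextc (conf Q w n).1 (conf Q w n).2)

variable {Q : Fin K → Fin K → List (Fin K)} {L : ℕ} {i : I}

/-- The layers code the configurations. -/
noncomputable def confIso (hL : ∀ y z, (Q y z).length ≤ L) (w : List (Fin K)) :
    (n : ℕ) → Iso (mdl I (conf Q w n).1 (conf Q w n).2) (layer (mdl I w 0) (act Q L i) n)
  | 0 => Iso.refl _
  | n + 1 => (updIso hL _ _).trans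
      ((confIso hL w n).upd ⟨Equiv.refl _, fun _ _ _ => Iff.rfl, fun _ => rfl⟩)

theorem conf_fst (w : List (Fin K)) (n : ℕ) : (conf Q w n).1 = (qstep Q)^[n] w := by
  induction n with
  | zero => rfl
  | succ n ih => rw [Function.iterate_succ_apply', ← ih]; rfl

theorem conf_halt {w : List (Fin K)} {n : ℕ} (h : (qstep Q)^[n] w = []) :
    conf Q w (n + 1) = conf Q w n := by
  have h1 : (conf Q w n).1 = [] := by rw [conf_fst, h]
  refine Prod.ext ?_ ?_
  · change qstep Q (conf Q w n).1 = _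
    rw [h1]; rfl
  · change nextc (conf Q w n).1 (conf Q w n).2 = _
    simp [nextc, h1]

theorem conf_run {w : List (Fin K)} (h : ∀ n, (qstep Q)^[n] w ≠ []) (n : ℕ) :
    (conf Q w n).2 = n := by
  induction n with
  | zero => rfl
  | succ n ih =>
    change nextc (conf Q w n).1 (conf Q w n).2 = _
    have : (conf Q w n).1 ≠ [] := by rw [conf_fst]; exact h n
    simp [nextc, this, ih]

/-! ### Counters of different size are not bisimilar -/

section
variable {w w' : List (Fin K)} {c c' : ℕ}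

theorem ctr_match [Nonempty I] {Z : (mdl I w c).W → (mdl I w' c').W → Prop}
    (hZ : IsBisim (mdl I w c) (mdl I w' c') Z) {j : Fin c'} {x : (mdl I w c).W}
    (h : Z x (Wd.ctr j)) : ∃ i, x = Wd.ctr i := by
  obtain ⟨i0⟩ := ‹Nonempty I›
  have := (hZ.sat_iff (fCtr K i0) h).2 (sat_fCtr.2 ⟨j, rfl⟩)
  exact sat_fCtr.1 this

theorem ctr_match' [Nonempty I] {Z : (mdl I w c).W → (mdl I w' c').W → Prop}
    (hZ : IsBisim (mdl I w c) (mdl I w' c') Z) {j : Fin c} {x : (mdl I w' c').W}
    (h : Z (Wd.ctr j) x) : ∃ i, x = Wd.ctr i := by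
  obtain ⟨i0⟩ := ‹Nonempty I›
  have := (hZ.sat_iff (fCtr K i0) h).1 (sat_fCtr.2 ⟨j, rfl⟩)
  exact sat_fCtr.1 this

theorem ctr_eq [Nonempty I] {Z : (mdl I w c).W → (mdl I w' c').W → Prop}
    (hZ : IsBisim (mdl I w c) (mdl I w' c') Z) :
    ∀ (n : ℕ) (i : Fin c) (j : Fin c'), min i.1 j.1 = n →
      Z (Wd.ctr i) (Wd.ctr j) → i.1 = j.1 := by
  obtain ⟨i0⟩ := ‹Nonempty I›
  intro n
  induction n using Nat.strong_induction_on with
  | _ n ih =>
    intro i j hn hz
    rcases lt_trichotomy i.1 j.1 with h | h | h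
    · -- the second one sees a copy of the first
      obtain ⟨x, hx, hzx⟩ := (hZ _ _ hz).2.2 i0 (Wd.ctr ⟨i.1, h.trans j.2⟩) h
      obtain ⟨k, rfl⟩ := ctr_match hZ hzx
      change k.1 < i.1 at hx
      have := ih (min k.1 i.1) (by omega) k ⟨i.1, h.trans j.2⟩ rfl hzx
      simp only at this
      omega
    · exact h
    · obtain ⟨x, hx, hzx⟩ := (hZ _ _ hz).2.1 i0 (Wd.ctr ⟨j.1, h.trans i.2⟩) h
      obtain ⟨k, rfl⟩ := ctr_match' hZ hzx
      change k.1 < j.1 at hx
      have := ih (min j.1 k.1) (by omega) ⟨j.1, h.trans i.2⟩ k rfl hzx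
      simp only at this
      omega

theorem not_gbisim [Nonempty I] (h : c < c') : ¬ GBisim (mdl I w c) (mdl I w' c') := by
  rintro ⟨Z, hZ, -, h2⟩
  obtain ⟨x, hx⟩ := h2 (Wd.ctr ⟨c, h⟩)
  obtain ⟨i, rfl⟩ := ctr_match hZ hx
  have h1 := ctr_eq hZ _ i ⟨c, h⟩ rfl hx
  have h2 := i.2
  simp only at h1
  omega

end

/-- The one-agent criterion. -/
theorem finite_mdl_iff (hL : ∀ y z, (Q y z).length ≤ L) (w : List (Fin K)) :
    FiniteModBisim (tree (mdl I w 0) (act Q L i)) ↔ ∃ n, (qstep Q)^[n] w = [] := by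
  have : Finite (act Q L i).E := finiteEv
  have : Nonempty I := ⟨i⟩
  rw [finite_iff]
  constructor
  · rintro ⟨n, m, hnm, hg⟩
    by_contra hn
    push Not at hn
    have hg' := ((confIso (I := I) (i := i) hL w n).gbisim.trans hg).trans
      (confIso (I := I) (i := i) hL w m).gbisim.symm
    refine not_gbisim ?_ hg'
    rw [conf_run hn, conf_run hn]
    exact hnm
  · rintro ⟨n, hn⟩
    refine ⟨n, n + 1, Nat.lt_succ_self n, ?_⟩
    refine ((confIso (I := I) (i := i) hL w n).gbisim.symm.trans ?_).trans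
      (confIso (I := I) (i := i) hL w (n + 1)).gbisim
    rw [conf_halt hn]
    exact GBisim.refl _

variable {J : Type} [DecidableEq J] {j0 j1 : J}

instance finiteTr (w : List (Fin K)) (c : ℕ) : Finite (tr j0 (mdl Unit w c)).W :=
  inferInstanceAs (Finite (_ ⊕ {x : _ × _ // _}))

instance finiteTrA : Finite (trA j0 j1 (act Q L ())).E :=
  inferInstanceAs (Finite (_ ⊕ {x : _ × _ // _}))

/-- The criterion for equivalence relations. -/
theorem finite_tr_iff (hj : j1 ≠ j0) (hL : ∀ y z, (Q y z).length ≤ L) (w : List (Fin K)) :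
    FiniteModBisim (tree (tr j0 (mdl Unit w 0)) (trA j0 j1 (act Q L ()))) ↔
      ∃ n, (qstep Q)^[n] w = [] := by
  rw [finite_iff]
  have e : ∀ n, Iso (tr j0 (mdl Unit (conf Q w n).1 (conf Q w n).2))
      (layer (tr j0 (mdl Unit w 0)) (trA j0 j1 (act Q L ())) n) := fun n =>
    (trIso (confIso hL w n)).trans (trLayer hj _ _ n)
  constructor
  · rintro ⟨n, m, hnm, hg⟩
    by_contra hn
    push Not at hn
    have hg' := trGB j1 hj (((e n).gbisim.trans hg).trans (e m).gbisim.symm)
    refine not_gbisim ?_ hg'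
    rw [conf_run hn, conf_run hn]
    exact hnm
  · rintro ⟨n, hn⟩
    refine ⟨n, n + 1, Nat.lt_succ_self n, ?_⟩
    refine ((e n).gbisim.symm.trans ?_).trans (e (n + 1)).gbisim
    rw [conf_halt hn]
    exact GBisim.refl _

end Pool.Agent.R536.UE
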