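import Mathlib

/-!
Epistemic models, action models, product update, update evolution and bisimulation.
-/

set_option autoImplicit false

namespace Pool.Agent.R536.UE

variable {I P : Type}

/-- Formulas of the basic epistemic language with agents `I` and atoms `P`. -/
inductive Form (I P : Type) : Type
  | atom (p : P) : Form I P
  | neg (φ : Form I P) : Form I P
  | and (φ ψ : Form I P) : Form I P
  | K (i : I) (φ : Form I P) : Form I P

/-- Epistemic models: worlds, a binary relation for each agent, a valuation. -/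
structure EModel (I P : Type) : Type 1 where
  W : Type
  R : I → W → W → Prop
  V : P → W → Prop

/-- Truth of a formula at a world. -/
def EModel.sat (M : EModel I P) : Form I P → M.W → Prop
  | .atom p, w => M.V p w
  | .neg φ, w => ¬ M.sat φ w
  | .and φ ψ, w => M.sat φ w ∧ M.sat ψ w
  | .K i φ, w => ∀ v, M.R i w v → M.sat φ v

/-- AModel models: events, a binary relation for each agent, preconditions. -/
structure AModel (I P : Type) : Type 1 where
  E : Type
  S : I → E → E → Prop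
  pre : E → Form I P

/-- The product update. -/
def upd (M : EModel I P) (A : AModel I P) : EModel I P where
  W := {x : M.W × A.E // M.sat (A.pre x.2) x.1}
  R i x y := M.R i x.1.1 y.1.1 ∧ A.S i x.1.2 y.1.2
  V p x := M.V p x.1.1

/-- The successive layers `M`, `M × A`, `(M × A) × A`, ... -/
def layer (M : EModel I P) (A : AModel I P) : ℕ → EModel I P
  | 0 => M
  | n + 1 => upd (layer M A n) A

/-- The disjoint union of a sequence of models. -/
def disjUnion (L : ℕ → EModel I P) : EModel I P where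
  W := Σ n, (L n).W
  R i x y := ∃ n, ∃ w v : (L n).W, x = ⟨n, w⟩ ∧ y = ⟨n, v⟩ ∧ (L n).R i w v
  V p x := (L x.1).V p x.2

/-- The update evolution model. -/
def tree (M : EModel I P) (A : AModel I P) : EModel I P := disjUnion (layer M A)

/-- Bisimulations between two models. -/
def IsBisim (M N : EModel I P) (Z : M.W → N.W → Prop) : Prop :=
  ∀ w v, Z w v →
    (∀ p, M.V p w ↔ N.V p v) ∧
    (∀ i w', M.R i w w' → ∃ v', N.R i v v' ∧ Z w' v') ∧
    (∀ i v', N.R i v v' → ∃ w', M.R i w w' ∧ Z w' v')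

/-- The largest bisimulation on a model: the union of all of them. -/
def Bisimilar (M : EModel I P) (w v : M.W) : Prop := ∃ Z, IsBisim M M Z ∧ Z w v

theorem IsBisim.symm {M N : EModel I P} {Z : M.W → N.W → Prop} (h : IsBisim M N Z) :
    IsBisim N M (fun v w => Z w v) := by
  intro v w hz
  obtain ⟨h1, h2, h3⟩ := h w v hz
  exact ⟨fun p => (h1 p).symm, h3, h2⟩

theorem IsBisim.comp {M N O : EModel I P} {Z : M.W → N.W → Prop} {Y : N.W → O.W → Prop}
    (h : IsBisim M N Z) (h' : IsBisim N O Y) :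
    IsBisim M O (fun w u => ∃ v, Z w v ∧ Y v u) := by
  rintro w u ⟨v, hz, hy⟩
  obtain ⟨a1, a2, a3⟩ := h w v hz
  obtain ⟨b1, b2, b3⟩ := h' v u hy
  refine ⟨fun p => (a1 p).trans (b1 p), ?_, ?_⟩
  · intro i w' hw
    obtain ⟨v', hv, hz'⟩ := a2 i w' hw
    obtain ⟨u', hu, hy'⟩ := b2 i v' hv
    exact ⟨u', hu, v', hz', hy'⟩
  · intro i u' hu
    obtain ⟨v', hv, hy'⟩ := b3 i u' hu
    obtain ⟨w', hw, hz'⟩ := a3 i v' hv
    exact ⟨w', hw, v', hz', hy'⟩

theorem isBisim_eq (M : EModel I P) : IsBisim M M (fun w v => w = v) := by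
  rintro w _ rfl
  exact ⟨fun _ => Iff.rfl, fun i w' h => ⟨w', h, rfl⟩, fun i w' h => ⟨w', h, rfl⟩⟩

/-- Bisimilarity is an equivalence relation. -/
def bisimSetoid (M : EModel I P) : Setoid M.W where
  r := Bisimilar M
  iseqv := {
    refl := fun w => ⟨_, isBisim_eq M, rfl⟩
    symm := by
      rintro w v ⟨Z, h, hz⟩
      exact ⟨_, h.symm, hz⟩
    trans := by
      rintro w v u ⟨Z, h, hz⟩ ⟨Y, h', hy⟩
      exact ⟨_, h.comp h', v, hz, hy⟩ }

/-- The bisimulation contraction is finite. -/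
def FiniteModBisim (M : EModel I P) : Prop := Finite (Quotient (bisimSetoid M))

/-- All relations of the model are equivalence relations. -/
def EModel.IsS5 (M : EModel I P) : Prop := ∀ i, Equivalence (M.R i)

/-- All relations of the action model are equivalence relations. -/
def AModel.IsS5 (A : AModel I P) : Prop := ∀ i, Equivalence (A.S i)

theorem IsBisim.sat_iff {M N : EModel I P} {Z : M.W → N.W → Prop} (h : IsBisim M N Z)
    (φ : Form I P) : ∀ {w v}, Z w v → (M.sat φ w ↔ N.sat φ v) := by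
  induction φ with
  | atom p => intro w v hz; exact (h w v hz).1 p
  | neg φ ih => intro w v hz; exact not_congr (ih hz)
  | and φ ψ ih1 ih2 => intro w v hz; exact and_congr (ih1 hz) (ih2 hz)
  | K i φ ih =>
    intro w v hz
    constructor
    · intro hw v' hv'
      obtain ⟨w', hw', hz'⟩ := (h w v hz).2.2 i v' hv'
      exact (ih hz').1 (hw w' hw')
    · intro hv w' hw'
      obtain ⟨v', hv', hz'⟩ := (h w v hz).2.1 i w' hw'
      exact (ih hz').2 (hv v' hv')

/-- Two models are globally bisimilar. -/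
def GBisim (M N : EModel I P) : Prop :=
  ∃ Z, IsBisim M N Z ∧ (∀ w, ∃ v, Z w v) ∧ (∀ v, ∃ w, Z w v)

theorem GBisim.refl (M : EModel I P) : GBisim M M :=
  ⟨_, isBisim_eq M, fun w => ⟨w, rfl⟩, fun w => ⟨w, rfl⟩⟩

theorem GBisim.symm {M N : EModel I P} : GBisim M N → GBisim N M := by
  rintro ⟨Z, h, h1, h2⟩
  exact ⟨_, h.symm, h2, h1⟩

theorem GBisim.trans {M N O : EModel I P} : GBisim M N → GBisim N O → GBisim M O := by
  rintro ⟨Z, h, h1, h2⟩ ⟨Y, h', h1', h2'⟩
  refine ⟨_, h.comp h', ?_, ?_⟩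
  · intro w
    obtain ⟨v, hv⟩ := h1 w
    obtain ⟨u, hu⟩ := h1' v
    exact ⟨u, v, hv, hu⟩
  · intro u
    obtain ⟨v, hv⟩ := h2' u
    obtain ⟨w, hw⟩ := h2 v
    exact ⟨w, v, hw, hv⟩

theorem GBisim.upd {M N : EModel I P} (A : AModel I P) (h : GBisim M N) :
    GBisim (upd M A) (upd N A) := by
  obtain ⟨Z, h, h1, h2⟩ := h
  refine ⟨fun x y => Z x.1.1 y.1.1 ∧ x.1.2 = y.1.2, ?_, ?_, ?_⟩
  · rintro ⟨⟨w, e⟩, hw⟩ ⟨⟨v, f⟩, hv⟩ ⟨hz, he⟩
    change Z w v at hz
    change e = f at he
    subst he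
    obtain ⟨a1, a2, a3⟩ := h w v hz
    refine ⟨a1, ?_, ?_⟩
    · rintro i ⟨⟨w', e'⟩, hw'⟩ ⟨hR, hS⟩
      obtain ⟨v', hv', hz'⟩ := a2 i w' hR
      exact ⟨⟨⟨v', e'⟩, (h.sat_iff _ hz').1 hw'⟩, ⟨hv', hS⟩, hz', rfl⟩
    · rintro i ⟨⟨v', e'⟩, hv'⟩ ⟨hR, hS⟩
      obtain ⟨w', hw', hz'⟩ := a3 i v' hR
      exact ⟨⟨⟨w', e'⟩, (h.sat_iff _ hz').2 hv'⟩, ⟨hw', hS⟩, hz', rfl⟩
  · rintro ⟨⟨w, e⟩, hw⟩
    obtain ⟨v, hz⟩ := h1 w
    exact ⟨⟨⟨v, e⟩, (h.sat_iff _ hz).1 hw⟩, hz, rfl⟩
  · rintro ⟨⟨v, e⟩, hv⟩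
    obtain ⟨w, hz⟩ := h2 v
    exact ⟨⟨⟨w, e⟩, (h.sat_iff _ hz).2 hv⟩, hz, rfl⟩

theorem GBisim.layer {M N : EModel I P} (A : AModel I P) (h : GBisim M N) (n : ℕ) :
    GBisim (layer M A n) (layer N A n) := by
  induction n with
  | zero => exact h
  | succ n ih => exact ih.upd A

theorem layer_add (M : EModel I P) (A : AModel I P) (m n : ℕ) :
    layer M A (m + n) = layer (layer M A m) A n := by
  induction n with
  | zero => rfl
  | succ n ih => rw [← Nat.add_assoc]; change upd _ _ = upd _ _; rw [ih]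

/-! ### Disjoint unions -/

theorem isBisim_incl (L : ℕ → EModel I P) (n : ℕ) :
    IsBisim (L n) (disjUnion L) (fun w x => x = ⟨n, w⟩) := by
  rintro w x rfl
  refine ⟨fun _ => Iff.rfl, ?_, ?_⟩
  · intro i w' h
    exact ⟨⟨n, w'⟩, ⟨n, w, w', rfl, rfl, h⟩, rfl⟩
  · rintro i y ⟨m, w1, v1, h1, rfl, h⟩
    cases h1
    exact ⟨v1, h, rfl⟩

theorem bisimilar_incl {L : ℕ → EModel I P} {n m : ℕ} {w : (L n).W} {v : (L m).W}
    {Z : (L n).W → (L m).W → Prop} (h : IsBisim (L n) (L m) Z) (hz : Z w v) :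
    Bisimilar (disjUnion L) ⟨n, w⟩ ⟨m, v⟩ :=
  ⟨_, ((isBisim_incl L n).symm.comp h).comp (isBisim_incl L m), v, ⟨w, rfl, hz⟩, rfl⟩

theorem isBisim_restrict (L : ℕ → EModel I P) (n m : ℕ) :
    IsBisim (L n) (L m) (fun w v => Bisimilar (disjUnion L) ⟨n, w⟩ ⟨m, v⟩) := by
  rintro w v ⟨Z, h, hz⟩
  have H := ((isBisim_incl L n).comp h).comp (isBisim_incl L m).symm
  obtain ⟨h1, h2, h3⟩ := H w v ⟨⟨m, v⟩, ⟨⟨n, w⟩, rfl, hz⟩, rfl⟩
  refine ⟨h1, ?_, ?_⟩
  · intro i w' hw
    obtain ⟨v', hv', ⟨_, ⟨y, hy, hz'⟩, hx⟩⟩ := h2 i w' hw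
    subst hx hy
    exact ⟨v', hv', Z, h, hz'⟩
  · intro i v' hv
    obtain ⟨w', hw', ⟨_, ⟨y, hy, hz'⟩, hx⟩⟩ := h3 i v' hv
    subst hx hy
    exact ⟨w', hw', Z, h, hz'⟩

instance finite_upd (M : EModel I P) (A : AModel I P) [Finite M.W] [Finite A.E] :
    Finite (upd M A).W := inferInstanceAs (Finite {x : M.W × A.E // _})

theorem finite_layer (M : EModel I P) (A : AModel I P) [Finite M.W] [Finite A.E] (n : ℕ) :
    Finite (layer M A n).W := by
  induction n with
  | zero => assumption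
  | succ n ih => exact finite_upd _ _

/-- The update evolution model is finite modulo bisimulation exactly when two of its layers are
globally bisimilar. -/
theorem finite_iff (M : EModel I P) (A : AModel I P) [Finite M.W] [Finite A.E] :
    FiniteModBisim (tree M A) ↔ ∃ n m, n < m ∧ GBisim (layer M A n) (layer M A m) := by
  constructor
  · intro hf
    unfold FiniteModBisim at hf
    let c : ℕ → Set (Quotient (bisimSetoid (tree M A))) := fun n =>
      Set.range (fun w : (layer M A n).W =>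
        (Quotient.mk (bisimSetoid (tree M A)) (⟨n, w⟩ : (tree M A).W)))
    obtain ⟨n, m, hne, hc⟩ := Finite.exists_ne_map_eq_of_infinite c
    have key : ∀ n m, c n = c m → GBisim (layer M A n) (layer M A m) := by
      intro n m hc
      refine ⟨_, isBisim_restrict (layer M A) n m, ?_, ?_⟩
      · intro w
        have : (Quotient.mk (bisimSetoid (tree M A)) (⟨n, w⟩ : (tree M A).W)) ∈ c m := by
          rw [← hc]; exact ⟨w, rfl⟩
        obtain ⟨v, hv⟩ := this
        exact ⟨v, (bisimSetoid (tree M A)).symm (Quotient.exact hv)⟩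
      · intro v
        have : (Quotient.mk (bisimSetoid (tree M A)) (⟨m, v⟩ : (tree M A).W)) ∈ c n := by
          rw [hc]; exact ⟨v, rfl⟩
        obtain ⟨w, hw⟩ := this
        exact ⟨w, Quotient.exact hw⟩
    rcases Nat.lt_or_gt_of_ne hne with h | h
    · exact ⟨n, m, h, key n m hc⟩
    · exact ⟨m, n, h, key m n hc.symm⟩
  · rintro ⟨n, m, hnm, hg⟩
    -- every layer is globally bisimilar to one with index below `m`
    have hall : ∀ k, ∃ j, j < m ∧ GBisim (layer M A k) (layer M A j) := by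
      intro k
      induction k using Nat.strong_induction_on with
      | _ k ih =>
        by_cases hk : k < m
        · exact ⟨k, hk, GBisim.refl _⟩
        · obtain ⟨d, rfl⟩ := Nat.exists_eq_add_of_le (Nat.le_of_not_lt hk)
          obtain ⟨j, hj, hj'⟩ := ih (n + d) (by omega)
          refine ⟨j, hj, GBisim.trans ?_ hj'⟩
          rw [layer_add, layer_add]
          exact hg.symm.layer A d
    have hfin : ∀ j, Finite (layer M A j).W := finite_layer M A
    have hF : Finite (Σ j : Fin m, (layer M A j).W) := inferInstance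
    unfold FiniteModBisim
    refine Finite.of_surjective (α := Σ j : Fin m, (layer M A j).W)
      (fun x => Quotient.mk (bisimSetoid (tree M A)) (⟨x.1.1, x.2⟩ : (tree M A).W)) ?_
    intro q
    induction q using Quotient.inductionOn with
    | _ x =>
      obtain ⟨k, w⟩ := x
      obtain ⟨j, hj, Z, hZ, h1, h2⟩ := hall k
      obtain ⟨v, hv⟩ := h1 w
      refine ⟨⟨⟨j, hj⟩, v⟩, ?_⟩
      exact Quotient.sound ((bisimSetoid (tree M A)).symm (bisimilar_incl hZ hv))

/-! ### Isomorphisms -/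

/-- An isomorphism of models. -/
structure Iso (M N : EModel I P) where
  e : M.W ≃ N.W
  R_iff : ∀ i w v, M.R i w v ↔ N.R i (e w) (e v)
  V_iff : ∀ p w, M.V p w ↔ N.V p (e w)

/-- The identity. -/
def Iso.refl (M : EModel I P) : Iso M M := ⟨Equiv.refl _, fun _ _ _ => Iff.rfl, fun _ _ => Iff.rfl⟩

/-- Inverse. -/
def Iso.symm {M N : EModel I P} (h : Iso M N) : Iso N M where
  e := h.e.symm
  R_iff i w v := by rw [h.R_iff]; simp
  V_iff p w := by rw [h.V_iff]; simp

/-- Composition. -/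
def Iso.trans {M N O : EModel I P} (h : Iso M N) (h' : Iso N O) : Iso M O where
  e := h.e.trans h'.e
  R_iff i w v := by rw [h.R_iff, h'.R_iff]; rfl
  V_iff p w := by rw [h.V_iff, h'.V_iff]; rfl

theorem Iso.gbisim {M N : EModel I P} (h : Iso M N) : GBisim M N := by
  refine ⟨fun w v => h.e w = v, ?_, fun w => ⟨_, rfl⟩, fun v => ⟨h.e.symm v, by simp⟩⟩
  rintro w _ rfl
  refine ⟨fun p => h.V_iff p w, ?_, ?_⟩
  · intro i w' hw
    exact ⟨h.e w', (h.R_iff i w w').1 hw, rfl⟩
  · intro i v' hv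
    refine ⟨h.e.symm v', ?_, by simp⟩
    rw [h.R_iff]
    simpa using hv

theorem Iso.sat_iff {M N : EModel I P} (h : Iso M N) (φ : Form I P) (w : M.W) :
    M.sat φ w ↔ N.sat φ (h.e w) := by
  induction φ generalizing w with
  | atom p => exact h.V_iff p w
  | neg φ ih => exact not_congr (ih w)
  | and φ ψ ih1 ih2 => exact and_congr (ih1 w) (ih2 w)
  | K i φ ih =>
    constructor
    · intro hw v hv
      have := hw (h.e.symm v) (by rw [h.R_iff]; simpa using hv)
      rw [ih] at this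
      simpa using this
    · intro hv w' hw'
      rw [ih]
      exact hv _ ((h.R_iff i w w').1 hw')

/-- An isomorphism of action models. -/
structure AIso (A B : AModel I P) where
  e : A.E ≃ B.E
  S_iff : ∀ i x y, A.S i x y ↔ B.S i (e x) (e y)
  pre_eq : ∀ x, A.pre x = B.pre (e x)

/-- The product update preserves isomorphism. -/
def Iso.upd {M N : EModel I P} {A B : AModel I P} (h : Iso M N) (g : AIso A B) :
    Iso (upd M A) (upd N B) where
  e := {
    toFun := fun x => ⟨(h.e x.1.1, g.e x.1.2), by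
      have := (h.sat_iff _ _).1 x.2
      rw [g.pre_eq] at this
      exact this⟩
    invFun := fun y => ⟨(h.e.symm y.1.1, g.e.symm y.1.2), by
      have := y.2
      rw [h.sat_iff, g.pre_eq]
      simpa using this⟩
    left_inv := by
      rintro ⟨⟨w, e⟩, hw⟩
      apply Subtype.ext
      simp
    right_inv := by
      rintro ⟨⟨w, e⟩, hw⟩
      apply Subtype.ext
      simp }
  R_iff i x y := and_congr (h.R_iff i _ _) (g.S_iff i _ _)
  V_iff p x := h.V_iff p _

/-- Layers of isomorphic data are isomorphic. -/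
def Iso.layer {M N : EModel I P} {A B : AModel I P} (h : Iso M N) (g : AIso A B) :
    (n : ℕ) → Iso (layer M A n) (layer N B n)
  | 0 => h
  | n + 1 => (h.layer g n).upd g

/-- Finiteness of the update evolution only depends on the data up to isomorphism. -/
theorem finite_congr {M N : EModel I P} {A B : AModel I P} [Finite M.W] [Finite A.E]
    (h : Iso M N) (g : AIso A B) :
    FiniteModBisim (tree M A) ↔ FiniteModBisim (tree N B) := by
  have : Finite N.W := Finite.of_equiv _ h.e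
  have : Finite B.E := Finite.of_equiv _ g.e
  rw [finite_iff, finite_iff]
  constructor
  · rintro ⟨n, m, hnm, hg⟩
    exact ⟨n, m, hnm, ((h.layer g n).gbisim.symm.trans hg).trans (h.layer g m).gbisim⟩
  · rintro ⟨n, m, hnm, hg⟩
    exact ⟨n, m, hnm, ((h.layer g n).gbisim.trans hg).trans (h.layer g m).gbisim.symm⟩

end Pool.Agent.R536.UE
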