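import Pool.Agent.R536.UE.Sem

/-!
An action model whose iterated product update runs a queue system.
-/

set_option autoImplicit false

namespace Pool.Agent.R536.UE

variable {I : Type} {K : ℕ}

/-- One step of the queue system with productions `Q` (the empty word is a fixed point). -/
def qstep (Q : Fin K → Fin K → List (Fin K)) : List (Fin K) → List (Fin K)
  | [] => []
  | [_] => []
  | x :: y :: t => t ++ Q x y

/-- Worlds of the model coding a word of length `n` and a counter value `c`. -/
inductive Wd (K n c : ℕ) : Type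
  | root : Wd K n c
  | elt (i : Fin n) : Wd K n c
  | ctr (j : Fin c) : Wd K n c
  | mrk (m : Fin (K + 2)) : Wd K n c

/-- The accessibility relation. -/
def rel (w : List (Fin K)) (c : ℕ) : Wd K w.length c → Wd K w.length c → Prop
  | .root, _ => True
  | .elt _, .root => True
  | .elt i, .elt j => j.1 < i.1
  | .elt i, .mrk m => m.1 = (w.get i).1
  | .elt _, .ctr _ => False
  | .ctr i, .ctr j => j.1 < i.1
  | .ctr _, .mrk m => m.1 = K + 1
  | .ctr _, .root => False
  | .ctr _, .elt _ => False
  | .mrk _, _ => False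

/-- The valuation. -/
def val {n c : ℕ} (p : ℕ) : Wd K n c → Prop
  | .mrk m => p = m.1
  | _ => False

/-- The model coding a word `w` and a counter value `c`. -/
abbrev mdl (I : Type) (w : List (Fin K)) (c : ℕ) : EModel I ℕ where
  W := Wd K w.length c
  R _ := rel w c
  V := val

/-! ### Formulas -/

/-- Diamond. -/
def dia (i : I) (φ : Form I ℕ) : Form I ℕ := .neg (.K i (.neg φ))

/-- A contradiction. -/
def bot : Form I ℕ := .and (.atom 0) (.neg (.atom 0))

/-- Disjunction. -/
def or2 (φ ψ : Form I ℕ) : Form I ℕ := .neg (.and (.neg φ) (.neg ψ))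

/-- Finite disjunction. -/
def orL : List (Form I ℕ) → Form I ℕ
  | [] => bot
  | φ :: l => or2 φ (orL l)

variable {M : EModel I ℕ} {i : I}

theorem sat_dia {φ : Form I ℕ} {w : M.W} :
    M.sat (dia i φ) w ↔ ∃ v, M.R i w v ∧ M.sat φ v := by
  simp only [dia, EModel.sat]
  push Not
  rfl

theorem sat_or2 {φ ψ : Form I ℕ} {w : M.W} :
    M.sat (or2 φ ψ) w ↔ M.sat φ w ∨ M.sat ψ w := by
  simp only [or2, EModel.sat]
  tauto

theorem sat_orL {l : List (Form I ℕ)} {w : M.W} :
    M.sat (orL l) w ↔ ∃ φ ∈ l, M.sat φ w := by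
  induction l with
  | nil => simp [orL, bot, EModel.sat]
  | cons φ l ih => simp [orL, sat_or2, ih]

/-- Holds at the root only. -/
def fRoot (K : ℕ) (i : I) : Form I ℕ := dia i (.atom K)
/-- Holds at the letters of the word only. -/
def fElt (K : ℕ) (i : I) : Form I ℕ := .and (.neg (fRoot K i)) (dia i (fRoot K i))
/-- Holds at the counter elements only. -/
def fCtr (K : ℕ) (i : I) : Form I ℕ := .and (.neg (fRoot K i)) (dia i (.atom (K + 1)))
/-- There is an older letter. -/
def fHas1 (K : ℕ) (i : I) : Form I ℕ := dia i (fElt K i)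
/-- There are two older letters. -/
def fHas2 (K : ℕ) (i : I) : Form I ℕ := dia i (.and (fElt K i) (fHas1 K i))
/-- The first letter is `x` (at the root). -/
def fFirst (i : I) (x : Fin K) : Form I ℕ :=
  dia i (.and (fElt K i) (.and (.neg (fHas1 K i)) (dia i (.atom x.1))))
/-- The second letter is `x` (at the root). -/
def fSecond (i : I) (x : Fin K) : Form I ℕ :=
  dia i (.and (.and (fElt K i) (.neg (fHas2 K i))) (.and (fHas1 K i) (dia i (.atom x.1))))

section
variable {w : List (Fin K)} {c : ℕ}

theorem sat_fRoot {x : (mdl I w c).W} : (mdl I w c).sat (fRoot K i) x ↔ x = Wd.root := by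
  rw [fRoot, sat_dia]
  constructor
  · rintro ⟨v, hR, hv⟩
    match x, v, hR, hv with
    | .root, _, _, _ => rfl
    | .elt k, .mrk m, hR, hv =>
      change m.1 = (w.get k).1 at hR
      change K = m.1 at hv
      have := (w.get k).2
      omega
    | .ctr k, .mrk m, hR, hv =>
      change m.1 = K + 1 at hR
      change K = m.1 at hv
      omega
  · rintro rfl
    exact ⟨.mrk ⟨K, by omega⟩, trivial, rfl⟩

theorem sat_fElt {x : (mdl I w c).W} :
    (mdl I w c).sat (fElt K i) x ↔ ∃ k, x = Wd.elt k := by
  rw [fElt, EModel.sat, EModel.sat, sat_fRoot, sat_dia]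
  simp only [sat_fRoot]
  constructor
  · rintro ⟨h1, v, hR, rfl⟩
    match x, hR with
    | .root, _ => exact absurd rfl h1
    | .elt k, _ => exact ⟨k, rfl⟩
  · rintro ⟨k, rfl⟩
    exact ⟨(by intro h; cases h), .root, trivial, rfl⟩

theorem sat_fCtr {x : (mdl I w c).W} :
    (mdl I w c).sat (fCtr K i) x ↔ ∃ k, x = Wd.ctr k := by
  rw [fCtr, EModel.sat, EModel.sat, sat_fRoot, sat_dia]
  constructor
  · rintro ⟨h1, v, hR, hv⟩
    match x, v, hR, hv with
    | .root, _, _, _ => exact absurd rfl h1
    | .elt k, .mrk m, hR, hv =>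
      change m.1 = (w.get k).1 at hR
      change K + 1 = m.1 at hv
      have := (w.get k).2
      omega
    | .ctr k, _, _, _ => exact ⟨k, rfl⟩
  · rintro ⟨k, rfl⟩
    exact ⟨(by intro h; cases h), .mrk ⟨K + 1, by omega⟩, rfl, rfl⟩

theorem sat_fHas1 {k : Fin w.length} :
    (mdl I w c).sat (fHas1 K i) (Wd.elt k : (mdl I w c).W) ↔ 1 ≤ k.1 := by
  rw [fHas1, sat_dia]
  simp only [sat_fElt]
  constructor
  · rintro ⟨_, hR, l, rfl⟩
    change l.1 < k.1 at hR
    omega
  · intro h
    exact ⟨.elt ⟨0, by omega⟩, by change 0 < k.1; omega, _, rfl⟩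

theorem sat_fHas2 {k : Fin w.length} :
    (mdl I w c).sat (fHas2 K i) (Wd.elt k : (mdl I w c).W) ↔ 2 ≤ k.1 := by
  rw [fHas2, sat_dia]
  simp only [EModel.sat, sat_fElt]
  constructor
  · rintro ⟨_, hR, ⟨l, rfl⟩, h⟩
    rw [sat_fHas1] at h
    change l.1 < k.1 at hR
    omega
  · intro h
    refine ⟨.elt ⟨1, by omega⟩, by change 1 < k.1; omega, ⟨_, rfl⟩, ?_⟩
    rw [sat_fHas1]

theorem sat_letter {k : Fin w.length} {x : Fin K} :
    (mdl I w c).sat (dia i (.atom x.1)) (Wd.elt k : (mdl I w c).W) ↔ w.get k = x := by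
  rw [sat_dia]
  constructor
  · rintro ⟨v, hR, hv⟩
    match v, hR, hv with
    | .mrk m, hR, hv =>
      change m.1 = (w.get k).1 at hR
      change x.1 = m.1 at hv
      exact Fin.ext (by omega)
  · intro h
    exact ⟨.mrk ⟨x.1, by omega⟩, (congrArg Fin.val h).symm, rfl⟩

theorem sat_fFirst {x : Fin K} :
    (mdl I w c).sat (fFirst i x) (Wd.root : (mdl I w c).W) ↔ w[0]? = some x := by
  rw [fFirst, sat_dia]
  simp only [EModel.sat, sat_fElt]
  constructor
  · rintro ⟨_, -, ⟨k, rfl⟩, h1, h2⟩
    rw [sat_fHas1] at h1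
    rw [sat_letter] at h2
    have hk : k.1 = 0 := by omega
    rw [← hk, ← h2]
    simp
  · intro h
    obtain ⟨h0, h⟩ := List.getElem?_eq_some_iff.1 h
    refine ⟨.elt ⟨0, h0⟩, trivial, ⟨_, rfl⟩, ?_, ?_⟩
    · rw [sat_fHas1]; simp
    · rw [sat_letter]; exact h

theorem sat_fSecond {x : Fin K} :
    (mdl I w c).sat (fSecond i x) (Wd.root : (mdl I w c).W) ↔ w[1]? = some x := by
  rw [fSecond, sat_dia]
  simp only [EModel.sat, sat_fElt]
  constructor
  · rintro ⟨_, -, ⟨⟨k, rfl⟩, h0⟩, h1, h2⟩
    rw [sat_fHas2] at h0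
    rw [sat_fHas1] at h1
    rw [sat_letter] at h2
    have hk : k.1 = 1 := by omega
    rw [← hk, ← h2]
    simp
  · intro h
    obtain ⟨h0, h⟩ := List.getElem?_eq_some_iff.1 h
    refine ⟨.elt ⟨1, h0⟩, trivial, ⟨⟨_, rfl⟩, ?_⟩, ?_, ?_⟩
    · rw [sat_fHas2]; simp
    · rw [sat_fHas1]
    · rw [sat_letter]; exact h

end

/-! ### The action model -/

/-- Events. -/
inductive Ev (K L : ℕ) : Type
  | keep : Ev K L
  | new (j : Fin L) (x : Fin K) : Ev K L
  | newc : Ev K L
  | ke : Ev K L
  | kc : Ev K L
  | km (m : Fin (K + 2)) : Ev K L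

/-- Relation between events. -/
def erel {L : ℕ} : Ev K L → Ev K L → Prop
  | .keep, _ => True
  | .new _ _, .keep => True
  | .new _ _, .ke => True
  | .new _ x, .km m => m.1 = x.1
  | .new j _, .new j' _ => j'.1 < j.1
  | .new _ _, _ => False
  | .newc, .kc => True
  | .newc, .km m => m.1 = K + 1
  | .newc, _ => False
  | .ke, .keep => True
  | .ke, .ke => True
  | .ke, .km _ => True
  | .ke, _ => False
  | .kc, .kc => True
  | .kc, .km _ => True
  | .kc, _ => False
  | .km _, _ => False

/-- All pairs of letters. -/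
def allPairs (K : ℕ) : List (Fin K × Fin K) := (List.finRange K) ×ˢ (List.finRange K)

/-- The letter `x` is the `j`-th letter of the word appended now. -/
def fNew (Q : Fin K → Fin K → List (Fin K)) (i : I) (j : ℕ) (x : Fin K) : Form I ℕ :=
  orL (((allPairs K).filter (fun p => (Q p.1 p.2)[j]? = some x)).map
    (fun p => .and (fFirst i p.1) (fSecond i p.2)))

/-- Preconditions. -/
def pre (Q : Fin K → Fin K → List (Fin K)) (L : ℕ) (i : I) : Ev K L → Form I ℕ
  | .keep => fRoot K i
  | .new j x => .and (fRoot K i) (fNew Q i j.1 x)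
  | .newc => .and (fRoot K i) (fHas1 K i)
  | .ke => .and (fElt K i) (fHas2 K i)
  | .kc => fCtr K i
  | .km m => .atom m.1

/-- The action model. -/
abbrev act (Q : Fin K → Fin K → List (Fin K)) (L : ℕ) (i : I) : AModel I ℕ where
  E := Ev K L
  S _ := erel
  pre := pre Q L i

section
variable {w : List (Fin K)} {c : ℕ} {Q : Fin K → Fin K → List (Fin K)} {L : ℕ}

theorem sat_fNew {j : ℕ} {x : Fin K} :
    (mdl I w c).sat (fNew Q i j x) (Wd.root : (mdl I w c).W) ↔
      ∃ y z, w[0]? = some y ∧ w[1]? = some z ∧ (Q y z)[j]? = some x := by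
  rw [fNew, sat_orL]
  constructor
  · rintro ⟨φ, hφ, hs⟩
    simp only [List.mem_map, List.mem_filter, decide_eq_true_eq] at hφ
    obtain ⟨⟨y, z⟩, ⟨-, hQ⟩, rfl⟩ := hφ
    simp only [EModel.sat] at hs
    rw [sat_fFirst, sat_fSecond] at hs
    exact ⟨y, z, hs.1, hs.2, hQ⟩
  · rintro ⟨y, z, h0, h1, hQ⟩
    refine ⟨.and (fFirst i y) (fSecond i z), ?_, ?_⟩
    · simp only [List.mem_map, List.mem_filter, decide_eq_true_eq]
      exact ⟨(y, z), ⟨by simp [allPairs], hQ⟩, rfl⟩
    · simp only [EModel.sat]
      rw [sat_fFirst, sat_fSecond]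
      exact ⟨h0, h1⟩

theorem sat_nonempty :
    (mdl I w c).sat (fHas1 K i) (Wd.root : (mdl I w c).W) ↔ w ≠ [] := by
  rw [fHas1, sat_dia]
  simp only [sat_fElt]
  constructor
  · rintro ⟨_, _, k, rfl⟩ rfl
    exact k.elim0
  · intro h
    exact ⟨.elt ⟨0, List.length_pos_iff.2 h⟩, trivial, _, rfl⟩

/-! ### Facts on the queue step -/

theorem qstep_old {k : ℕ} (h : k + 2 < w.length) : (qstep Q w)[k]? = w[k + 2]? := by
  match w, h with
  | x :: y :: t, h =>
    simp only [List.length_cons] at h
    have hk : k < t.length := by omega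
    simp only [qstep, List.getElem?_cons_succ]
    rw [List.getElem?_append_left hk]

theorem qstep_new {k : ℕ} (hk : k < (qstep Q w).length) (h : ¬ k + 2 < w.length) :
    ∃ y z, w[0]? = some y ∧ w[1]? = some z ∧
      (Q y z)[k + 2 - w.length]? = some ((qstep Q w)[k]) := by
  match w, h, hk with
  | [], h, hk => simp [qstep] at hk
  | [_], h, hk => simp [qstep] at hk
  | x :: y :: t, h, hk =>
    simp only [List.length_cons] at h
    have hk' : t.length ≤ k := by omega
    refine ⟨x, y, rfl, rfl, ?_⟩
    have e : k + 2 - (x :: y :: t).length = k - t.length := by simp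
    rw [e]
    simp only [qstep, List.length_append] at hk ⊢
    rw [List.getElem_append_right hk']
    simp

theorem qstep_new' {j : ℕ} {x : Fin K}
    (h : ∃ y z, w[0]? = some y ∧ w[1]? = some z ∧ (Q y z)[j]? = some x) :
    2 ≤ w.length ∧ (qstep Q w)[w.length - 2 + j]? = some x := by
  obtain ⟨y, z, h0, h1, hj⟩ := h
  match w, h0, h1 with
  | a :: b :: t, h0, h1 =>
    simp only [List.getElem?_cons_zero, Option.some.injEq] at h0
    simp only [List.getElem?_cons_succ, List.getElem?_cons_zero, Option.some.injEq] at h1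
    subst h0 h1
    refine ⟨by simp, ?_⟩
    simp only [List.length_cons, qstep]
    rw [List.getElem?_append_right (by omega)]
    rw [show t.length + 1 + 1 - 2 + j - t.length = j by omega]
    exact hj

/-- The next counter value. -/
def nextc (w : List (Fin K)) (c : ℕ) : ℕ := if w = [] then c else c + 1

theorem le_nextc : c ≤ nextc w c := by
  unfold nextc; split_ifs <;> omega

theorem nextc_le : nextc w c ≤ c + 1 := by
  unfold nextc; split_ifs <;> omega

/-- The map from the worlds of the next model to world-event pairs. -/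
def back (Q : Fin K → Fin K → List (Fin K)) (L : ℕ) (hL : ∀ y z, (Q y z).length ≤ L)
    (w : List (Fin K)) (c : ℕ) :
    Wd K (qstep Q w).length (nextc w c) → Wd K w.length c × Ev K L
  | .root => (.root, .keep)
  | .elt k =>
    if h : k.1 + 2 < w.length then (.elt ⟨k.1 + 2, h⟩, .ke)
    else (.root, .new ⟨k.1 + 2 - w.length, by
      obtain ⟨y, z, -, -, h3⟩ := qstep_new k.2 h
      obtain ⟨h4, -⟩ := List.getElem?_eq_some_iff.1 h3
      have := hL y z
      omega⟩ ((qstep Q w).get k))
  | .ctr j =>
    if h : j.1 < c then (.ctr ⟨j.1, h⟩, .kc) else (.root, .newc)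
  | .mrk m => (.mrk m, .km m)

variable (hL : ∀ y z, (Q y z).length ≤ L)

theorem back_elt_old {k : Fin (qstep Q w).length} (h : k.1 + 2 < w.length) :
    back Q L hL w c (.elt k) = (.elt ⟨k.1 + 2, h⟩, .ke) := by
  simp [back, h]

theorem back_elt_new {k : Fin (qstep Q w).length} (h : ¬ k.1 + 2 < w.length) :
    ∃ h', back Q L hL w c (.elt k) =
      (.root, .new ⟨k.1 + 2 - w.length, h'⟩ ((qstep Q w).get k)) := by
  refine ⟨?_, ?_⟩
  · obtain ⟨y, z, -, -, h3⟩ := qstep_new k.2 h
    obtain ⟨h4, -⟩ := List.getElem?_eq_some_iff.1 h3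
    have := hL y z
    omega
  · simp [back, h]

theorem back_ctr_old {j : Fin (nextc w c)} (h : j.1 < c) :
    back Q L hL w c (.ctr j) = (.ctr ⟨j.1, h⟩, .kc) := by
  simp [back, h]

theorem back_ctr_new {j : Fin (nextc w c)} (h : ¬ j.1 < c) :
    back Q L hL w c (.ctr j) = (.root, .newc) := by
  simp [back, h]

theorem back_sat (x : Wd K (qstep Q w).length (nextc w c)) :
    (mdl I w c).sat (pre Q L i (back Q L hL w c x).2) (back Q L hL w c x).1 := by
  match x with
  | .root => exact sat_fRoot.2 rfl
  | .elt k =>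
    by_cases h : k.1 + 2 < w.length
    · rw [back_elt_old hL h]
      exact ⟨sat_fElt.2 ⟨_, rfl⟩, sat_fHas2.2 (by simp)⟩
    · obtain ⟨h', he⟩ := back_elt_new (c := c) hL h
      rw [he]
      refine ⟨sat_fRoot.2 rfl, sat_fNew.2 ?_⟩
      exact qstep_new k.2 h
  | .ctr j =>
    by_cases h : j.1 < c
    · rw [back_ctr_old hL h]
      exact sat_fCtr.2 ⟨_, rfl⟩
    · rw [back_ctr_new hL h]
      refine ⟨sat_fRoot.2 rfl, sat_nonempty.2 ?_⟩
      intro hw
      have := j.2
      simp only [nextc, hw, if_true] at this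
      exact h this
  | .mrk m => rfl

theorem back_inj {x y : Wd K (qstep Q w).length (nextc w c)}
    (h : back Q L hL w c x = back Q L hL w c y) : x = y := by
  match x, y, h with
  | .root, .root, _ => rfl
  | .root, .elt k, h =>
    exfalso
    by_cases h2 : k.1 + 2 < w.length
    · rw [back_elt_old hL h2] at h; simp [back] at h
    · obtain ⟨h', he⟩ := back_elt_new (c := c) hL h2
      rw [he] at h; simp [back] at h
  | .root, .ctr j, h =>
    exfalso
    by_cases h2 : j.1 < c
    · rw [back_ctr_old hL h2] at h; simp [back] at h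
    · rw [back_ctr_new hL h2] at h; simp [back] at h
  | .root, .mrk m, h => simp [back] at h
  | .elt k, .root, h =>
    exfalso
    by_cases h2 : k.1 + 2 < w.length
    · rw [back_elt_old hL h2] at h; simp [back] at h
    · obtain ⟨h', he⟩ := back_elt_new (c := c) hL h2
      rw [he] at h; simp [back] at h
  | .elt k, .elt l, h =>
    by_cases h2 : k.1 + 2 < w.length <;> by_cases h3 : l.1 + 2 < w.length
    · rw [back_elt_old hL h2, back_elt_old hL h3] at h
      simp only [Prod.mk.injEq, Wd.elt.injEq, Fin.mk.injEq, and_true] at h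
      have : k = l := Fin.ext (by omega)
      rw [this]
    · obtain ⟨h', he⟩ := back_elt_new (c := c) hL h3
      rw [back_elt_old hL h2, he] at h
      simp at h
    · obtain ⟨h', he⟩ := back_elt_new (c := c) hL h2
      rw [back_elt_old hL h3, he] at h
      simp at h
    · obtain ⟨h', he⟩ := back_elt_new (c := c) hL h2
      obtain ⟨h'', he'⟩ := back_elt_new (c := c) hL h3
      rw [he, he'] at h
      simp only [Prod.mk.injEq, Ev.new.injEq, Fin.mk.injEq, true_and] at h
      have : k = l := Fin.ext (by omega)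
      rw [this]
  | .elt k, .ctr j, h =>
    exfalso
    by_cases h2 : k.1 + 2 < w.length <;> by_cases h3 : j.1 < c
    · rw [back_elt_old hL h2, back_ctr_old hL h3] at h; simp at h
    · rw [back_elt_old hL h2, back_ctr_new hL h3] at h; simp at h
    · obtain ⟨h', he⟩ := back_elt_new (c := c) hL h2
      rw [he, back_ctr_old hL h3] at h; simp at h
    · obtain ⟨h', he⟩ := back_elt_new (c := c) hL h2
      rw [he, back_ctr_new hL h3] at h; simp at h
  | .elt k, .mrk m, h =>
    exfalso
    by_cases h2 : k.1 + 2 < w.length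
    · rw [back_elt_old hL h2] at h; simp [back] at h
    · obtain ⟨h', he⟩ := back_elt_new (c := c) hL h2
      rw [he] at h; simp [back] at h
  | .ctr j, .root, h =>
    exfalso
    by_cases h2 : j.1 < c
    · rw [back_ctr_old hL h2] at h; simp [back] at h
    · rw [back_ctr_new hL h2] at h; simp [back] at h
  | .ctr j, .elt k, h =>
    exfalso
    by_cases h2 : k.1 + 2 < w.length <;> by_cases h3 : j.1 < c
    · rw [back_elt_old hL h2, back_ctr_old hL h3] at h; simp at h
    · rw [back_elt_old hL h2, back_ctr_new hL h3] at h; simp at h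
    · obtain ⟨h', he⟩ := back_elt_new (c := c) hL h2
      rw [he, back_ctr_old hL h3] at h; simp at h
    · obtain ⟨h', he⟩ := back_elt_new (c := c) hL h2
      rw [he, back_ctr_new hL h3] at h; simp at h
  | .ctr j, .ctr l, h =>
    by_cases h2 : j.1 < c <;> by_cases h3 : l.1 < c
    · rw [back_ctr_old hL h2, back_ctr_old hL h3] at h
      simp only [Prod.mk.injEq, Wd.ctr.injEq, Fin.mk.injEq, and_true] at h
      have : j = l := Fin.ext h
      rw [this]
    · rw [back_ctr_old hL h2, back_ctr_new hL h3] at h; simp at h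
    · rw [back_ctr_new hL h2, back_ctr_old hL h3] at h; simp at h
    · have h4 := j.2
      have h5 := l.2
      have h6 := nextc_le (w := w) (c := c)
      have : j = l := Fin.ext (by omega)
      rw [this]
  | .ctr j, .mrk m, h =>
    exfalso
    by_cases h2 : j.1 < c
    · rw [back_ctr_old hL h2] at h; simp [back] at h
    · rw [back_ctr_new hL h2] at h; simp [back] at h
  | .mrk m, .root, h => simp [back] at h
  | .mrk m, .elt k, h =>
    exfalso
    by_cases h2 : k.1 + 2 < w.length
    · rw [back_elt_old hL h2] at h; simp [back] at h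
    · obtain ⟨h', he⟩ := back_elt_new (c := c) hL h2
      rw [he] at h; simp [back] at h
  | .mrk m, .ctr j, h =>
    exfalso
    by_cases h2 : j.1 < c
    · rw [back_ctr_old hL h2] at h; simp [back] at h
    · rw [back_ctr_new hL h2] at h; simp [back] at h
  | .mrk m, .mrk m', h =>
    simp only [back, Prod.mk.injEq, Wd.mrk.injEq] at h
    rw [h.1]

theorem back_surj {x : Wd K w.length c} {e : Ev K L}
    (h : (mdl I w c).sat (pre Q L i e) x) : ∃ y, back Q L hL w c y = (x, e) := by
  match e, h with
  | .keep, h =>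
    obtain rfl := sat_fRoot.1 h
    exact ⟨.root, rfl⟩
  | .new j a, ⟨h1, h2⟩ =>
    obtain rfl := sat_fRoot.1 h1
    obtain ⟨h3, h4⟩ := qstep_new' (sat_fNew.1 h2)
    obtain ⟨h5, h6⟩ := List.getElem?_eq_some_iff.1 h4
    refine ⟨.elt ⟨w.length - 2 + j.1, h5⟩, ?_⟩
    obtain ⟨h', he⟩ := back_elt_new (c := c) hL (k := ⟨w.length - 2 + j.1, h5⟩)
      (by simp only; omega)
    rw [he]
    have e1 : w.length - 2 + j.1 + 2 - w.length = j.1 := by omega
    simp only [Prod.mk.injEq, Ev.new.injEq, true_and]
    exact ⟨Fin.ext e1, h6⟩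
  | .newc, ⟨h1, h2⟩ =>
    obtain rfl := sat_fRoot.1 h1
    have hw := sat_nonempty.1 h2
    have : c < nextc w c := by simp [nextc, hw]
    exact ⟨.ctr ⟨c, this⟩, back_ctr_new hL (by simp)⟩
  | .ke, ⟨h1, h2⟩ =>
    obtain ⟨k, rfl⟩ := sat_fElt.1 h1
    have h3 := sat_fHas2.1 h2
    have h4 : k.1 - 2 + 2 < w.length := by have := k.2; omega
    have h5 := qstep_old (Q := Q) h4
    have h6 : k.1 - 2 < (qstep Q w).length := by
      rw [List.getElem?_eq_getElem h4] at h5
      exact (List.getElem?_eq_some_iff.1 h5).1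
    refine ⟨.elt ⟨k.1 - 2, h6⟩, ?_⟩
    rw [back_elt_old hL h4]
    simp only [Prod.mk.injEq, Wd.elt.injEq, and_true]
    exact Fin.ext (by simp only; omega)
  | .kc, h =>
    obtain ⟨k, rfl⟩ := sat_fCtr.1 h
    exact ⟨.ctr ⟨k.1, lt_of_lt_of_le k.2 le_nextc⟩, back_ctr_old hL k.2⟩
  | .km m, h =>
    match x, h with
    | .mrk m', h =>
      change m.1 = m'.1 at h
      have : m = m' := Fin.ext h
      subst this
      exact ⟨.mrk m, rfl⟩

theorem back_val (p : ℕ) (x : Wd K (qstep Q w).length (nextc w c)) :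
    val p (back Q L hL w c x).1 ↔ val p x := by
  match x with
  | .root => exact Iff.rfl
  | .elt k =>
    by_cases h : k.1 + 2 < w.length
    · rw [back_elt_old hL h]; exact Iff.rfl
    · obtain ⟨h', he⟩ := back_elt_new (c := c) hL h
      rw [he]; exact Iff.rfl
  | .ctr j =>
    by_cases h : j.1 < c
    · rw [back_ctr_old hL h]; exact Iff.rfl
    · rw [back_ctr_new hL h]; exact Iff.rfl
  | .mrk m => exact Iff.rfl

theorem back_rel (x y : Wd K (qstep Q w).length (nextc w c)) :
    (rel w c (back Q L hL w c x).1 (back Q L hL w c y).1 ∧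
      erel (back Q L hL w c x).2 (back Q L hL w c y).2) ↔
    rel (qstep Q w) (nextc w c) x y := by
  match x, y with
  | .root, y => simp [back, rel, erel]
  | .elt k, .root =>
    by_cases h : k.1 + 2 < w.length
    · rw [back_elt_old hL h]; simp [back, rel, erel]
    · obtain ⟨h', he⟩ := back_elt_new (c := c) hL h
      rw [he]; simp [back, rel, erel]
  | .elt k, .elt l =>
    by_cases h2 : k.1 + 2 < w.length <;> by_cases h3 : l.1 + 2 < w.length
    · rw [back_elt_old hL h2, back_elt_old hL h3]
      simp only [rel, erel, and_true]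
      omega
    · obtain ⟨h', he⟩ := back_elt_new (c := c) hL h3
      rw [back_elt_old hL h2, he]
      simp only [rel, erel, and_false, false_iff]
      omega
    · obtain ⟨h', he⟩ := back_elt_new (c := c) hL h2
      rw [back_elt_old hL h3, he]
      simp only [rel, erel, and_true, true_iff]
      omega
    · obtain ⟨h', he⟩ := back_elt_new (c := c) hL h2
      obtain ⟨h'', he'⟩ := back_elt_new (c := c) hL h3
      rw [he, he']
      simp only [rel, erel, true_and]
      omega
  | .elt k, .ctr j =>
    by_cases h2 : k.1 + 2 < w.length <;> by_cases h3 : j.1 < c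
    · rw [back_elt_old hL h2, back_ctr_old hL h3]; simp [rel, erel]
    · rw [back_elt_old hL h2, back_ctr_new hL h3]; simp [rel, erel]
    · obtain ⟨h', he⟩ := back_elt_new (c := c) hL h2
      rw [he, back_ctr_old hL h3]; simp [rel, erel]
    · obtain ⟨h', he⟩ := back_elt_new (c := c) hL h2
      rw [he, back_ctr_new hL h3]; simp [rel, erel]
  | .elt k, .mrk m =>
    by_cases h : k.1 + 2 < w.length
    · rw [back_elt_old hL h]
      simp only [back, rel, erel, and_true]
      have h5 := qstep_old (Q := Q) h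
      rw [List.getElem?_eq_getElem h, List.getElem?_eq_getElem k.2] at h5
      simp only [Option.some.injEq] at h5
      simp only [List.get_eq_getElem]
      rw [h5]
    · obtain ⟨h', he⟩ := back_elt_new (c := c) hL h
      rw [he]
      simp only [back, rel, erel, true_and]
  | .ctr j, .root =>
    by_cases h : j.1 < c
    · rw [back_ctr_old hL h]; simp [back, rel]
    · rw [back_ctr_new hL h]; simp [back, rel, erel]
  | .ctr j, .elt k =>
    by_cases h2 : k.1 + 2 < w.length <;> by_cases h3 : j.1 < c
    · rw [back_elt_old hL h2, back_ctr_old hL h3]; simp [rel]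
    · rw [back_elt_old hL h2, back_ctr_new hL h3]; simp [rel, erel]
    · obtain ⟨h', he⟩ := back_elt_new (c := c) hL h2
      rw [he, back_ctr_old hL h3]; simp [rel]
    · obtain ⟨h', he⟩ := back_elt_new (c := c) hL h2
      rw [he, back_ctr_new hL h3]; simp [rel, erel]
  | .ctr j, .ctr l =>
    have h4 := j.2
    have h5 := l.2
    have h6 := nextc_le (w := w) (c := c)
    by_cases h2 : j.1 < c <;> by_cases h3 : l.1 < c
    · rw [back_ctr_old hL h2, back_ctr_old hL h3]
      simp only [rel, erel, and_true]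
    · rw [back_ctr_old hL h2, back_ctr_new hL h3]
      simp only [rel, erel, false_and, false_iff]
      omega
    · rw [back_ctr_new hL h2, back_ctr_old hL h3]
      simp only [rel, erel, and_true, true_iff]
      omega
    · rw [back_ctr_new hL h2, back_ctr_new hL h3]
      simp only [rel, erel, and_false, false_iff]
      omega
  | .ctr j, .mrk m =>
    by_cases h : j.1 < c
    · rw [back_ctr_old hL h]; simp [back, rel, erel]
    · rw [back_ctr_new hL h]; simp [back, rel, erel]
  | .mrk m, y =>
    simp only [back, rel, erel, and_false]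

/-- The product update of the model coding `(w, c)` codes the next configuration. -/
noncomputable def updIso (w : List (Fin K)) (c : ℕ) :
    Iso (mdl I (qstep Q w) (nextc w c)) (upd (mdl I w c) (act Q L i)) where
  e := Equiv.ofBijective
    (fun x => ⟨back Q L hL w c x, back_sat hL x⟩) (by
      constructor
      · intro x y h
        exact back_inj hL (congrArg Subtype.val h)
      · rintro ⟨⟨x, e⟩, h⟩
        obtain ⟨y, hy⟩ := back_surj hL h
        exact ⟨y, Subtype.ext hy⟩)
  R_iff _ x y := (back_rel hL x y).symm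
  V_iff p x := (back_val hL p x).symm

end

end Pool.Agent.R536.UE
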