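import Pool.Agent.R536.UE.Sim

/-!
Translation of one-agent models with an arbitrary relation to models in which all relations
are equivalence relations.
-/

set_option autoImplicit false

namespace Pool.Agent.R536.UE

variable {J : Type} [DecidableEq J]

/-- Sources. -/
def src {X : Type} {r : X → X → Prop} : X ⊕ {x : X × X // r x.1 x.2} → X
  | .inl w => w
  | .inr x => x.1.1

/-- Targets. -/
def tgt {X : Type} {r : X → X → Prop} : X ⊕ {x : X × X // r x.1 x.2} → X
  | .inl w => w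
  | .inr x => x.1.2

/-- The relations of the translation. -/
def trRel {X : Type} {r : X → X → Prop} (j0 j : J) (x y : X ⊕ {x : X × X // r x.1 x.2}) : Prop :=
  if j = j0 then src x = src y else tgt x = tgt y

theorem trRel_equiv {X : Type} {r : X → X → Prop} (j0 j : J) :
    Equivalence (trRel (r := r) j0 j) := by
  unfold trRel
  split_ifs
  · exact ⟨fun _ => rfl, fun h => h.symm, fun h h' => h.trans h'⟩
  · exact ⟨fun _ => rfl, fun h => h.symm, fun h h' => h.trans h'⟩

/-- The valuation of the translation. -/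
def trVal {X : Type} {r : X → X → Prop} (V : ℕ → X → Prop) (p : ℕ) :
    X ⊕ {x : X × X // r x.1 x.2} → Prop
  | .inl w => ∃ q, p = q + 1 ∧ V q w
  | .inr _ => p = 0

/-- The translation of a model. -/
abbrev tr (j0 : J) (M : EModel Unit ℕ) : EModel J ℕ where
  W := M.W ⊕ {x : M.W × M.W // M.R () x.1 x.2}
  R j x y := trRel j0 j x y
  V := trVal M.V

/-- Implication. -/
def imp (φ ψ : Form J ℕ) : Form J ℕ := .neg (.and φ (.neg ψ))

omit [DecidableEq J] in
theorem sat_imp {M : EModel J ℕ} {φ ψ : Form J ℕ} {w : M.W} :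
    M.sat (imp φ ψ) w ↔ (M.sat φ w → M.sat ψ w) := by
  simp only [imp, EModel.sat]
  tauto

/-- The translation of formulas. -/
def trF (j0 j1 : J) : Form Unit ℕ → Form J ℕ
  | .atom p => .atom (p + 1)
  | .neg φ => .neg (trF j0 j1 φ)
  | .and φ ψ => .and (trF j0 j1 φ) (trF j0 j1 ψ)
  | .K _ φ => .K j0 (imp (.atom 0) (.K j1 (imp (.neg (.atom 0)) (trF j0 j1 φ))))

theorem sat_trF {M : EModel Unit ℕ} {j0 j1 : J} (hj : j1 ≠ j0) (φ : Form Unit ℕ) :
    ∀ w : M.W, (tr j0 M).sat (trF j0 j1 φ) (Sum.inl w) ↔ M.sat φ w := by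
  induction φ with
  | atom p =>
    intro w
    simp [trF, EModel.sat, trVal]
  | neg φ ih => intro w; exact not_congr (ih w)
  | and φ ψ ih1 ih2 => intro w; exact and_congr (ih1 w) (ih2 w)
  | K i φ ih =>
    intro w
    simp only [trF, EModel.sat, sat_imp]
    constructor
    · intro h v hR
      have h1 := h (Sum.inr ⟨(w, v), hR⟩) (by simp [trRel, src]) (by simp [trVal])
        (Sum.inl v) (by simp [trRel, tgt, hj]) (by simp [trVal])
      exact (ih v).1 h1
    · intro h x hx hx0 y hy hy0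
      match x, hx, hx0, y, hy, hy0 with
      | .inl x, hx, hx0, _, _, _ => simp [trVal] at hx0
      | .inr x, hx, hx0, .inr y, hy, hy0 => simp [trVal] at hy0
      | .inr ⟨(a, b), hab⟩, hx, hx0, .inl y, hy, hy0 =>
        simp only [trRel, src, if_true] at hx
        simp only [trRel, tgt, if_neg hj] at hy
        subst hx hy
        exact (ih b).2 (h b hab)

/-- The translation of an action model. -/
abbrev trA (j0 j1 : J) (A : AModel Unit ℕ) : AModel J ℕ where
  E := A.E ⊕ {x : A.E × A.E // A.S () x.1 x.2}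
  S j x y := trRel j0 j x y
  pre
    | .inl e => .and (.neg (.atom 0)) (trF j0 j1 (A.pre e))
    | .inr x => .and (.atom 0) (.and
        (dia j0 (.and (.neg (.atom 0)) (trF j0 j1 (A.pre x.1.1))))
        (dia j1 (.and (.neg (.atom 0)) (trF j0 j1 (A.pre x.1.2)))))

section
variable {M N : EModel Unit ℕ} {A : AModel Unit ℕ} {j0 j1 : J}

theorem sat_inl (hj : j1 ≠ j0) (w : M.W) (e : A.E) :
    (tr j0 M).sat ((trA j0 j1 A).pre (Sum.inl e)) (Sum.inl w) ↔ M.sat (A.pre e) w := by
  simp only [EModel.sat, sat_trF hj]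
  simp [trVal]

theorem sat_inr_inl (e : {x : A.E × A.E // A.S () x.1 x.2}) (w : M.W) :
    ¬ (tr j0 M).sat ((trA j0 j1 A).pre (Sum.inr e)) (Sum.inl w) := by
  simp [EModel.sat, trVal]

theorem sat_inl_inr (e : A.E) (w : {x : M.W × M.W // M.R () x.1 x.2}) :
    ¬ (tr j0 M).sat ((trA j0 j1 A).pre (Sum.inl e)) (Sum.inr w) := by
  simp [EModel.sat, trVal]

theorem sat_inr (hj : j1 ≠ j0) (w : {x : M.W × M.W // M.R () x.1 x.2})
    (e : {x : A.E × A.E // A.S () x.1 x.2}) :
    (tr j0 M).sat ((trA j0 j1 A).pre (Sum.inr e)) (Sum.inr w) ↔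
      M.sat (A.pre e.1.1) w.1.1 ∧ M.sat (A.pre e.1.2) w.1.2 := by
  simp only [EModel.sat, sat_dia]
  constructor
  · rintro ⟨-, ⟨x, hx, hx0, hx1⟩, y, hy, hy0, hy1⟩
    match x, y, hx, hx0, hx1, hy, hy0, hy1 with
    | .inr x, _, _, hx0, _, _, _, _ => simp [trVal] at hx0
    | .inl x, .inr y, _, _, _, _, hy0, _ => simp [trVal] at hy0
    | .inl x, .inl y, hx, _, hx1, hy, _, hy1 =>
      simp only [trRel, src, if_true] at hx
      simp only [trRel, tgt, if_neg hj] at hy
      rw [sat_trF hj] at hx1 hy1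
      subst hx hy
      exact ⟨hx1, hy1⟩
  · rintro ⟨h1, h2⟩
    refine ⟨rfl, ⟨.inl w.1.1, by simp [trRel, src], by simp [trVal], ?_⟩,
      ⟨.inl w.1.2, by simp [trRel, tgt, hj], by simp [trVal], ?_⟩⟩
    · rw [sat_trF hj]; exact h1
    · rw [sat_trF hj]; exact h2

/-- The isomorphism of `trUpd`. -/
def fwd (hj : j1 ≠ j0) : (tr j0 (upd M A)).W → (upd (tr j0 M) (trA j0 j1 A)).W
  | .inl x => ⟨(.inl x.1.1, .inl x.1.2), (sat_inl hj _ _).2 x.2⟩
  | .inr x => ⟨(.inr ⟨(x.1.1.1.1, x.1.2.1.1), x.2.1⟩, .inr ⟨(x.1.1.1.2, x.1.2.1.2), x.2.2⟩),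
      (sat_inr hj _ _).2 ⟨x.1.1.2, x.1.2.2⟩⟩

/-- The inverse isomorphism of `trUpd`. -/
def bwd (hj : j1 ≠ j0) : (upd (tr j0 M) (trA j0 j1 A)).W → (tr j0 (upd M A)).W
  | ⟨(.inl w, .inl e), h⟩ => .inl ⟨(w, e), (sat_inl hj _ _).1 h⟩
  | ⟨(.inl _, .inr _), h⟩ => (sat_inr_inl _ _ h).elim
  | ⟨(.inr _, .inl _), h⟩ => (sat_inl_inr _ _ h).elim
  | ⟨(.inr w, .inr e), h⟩ =>
    .inr ⟨(⟨(w.1.1, e.1.1), ((sat_inr hj _ _).1 h).1⟩,
      ⟨(w.1.2, e.1.2), ((sat_inr hj _ _).1 h).2⟩), w.2, e.2⟩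

theorem src_fwd1 (hj : j1 ≠ j0) (x : (tr j0 (upd M A)).W) :
    src (fwd hj x).1.1 = (src x).1.1 := by rcases x with x | x <;> rfl

theorem src_fwd2 (hj : j1 ≠ j0) (x : (tr j0 (upd M A)).W) :
    src (fwd hj x).1.2 = (src x).1.2 := by rcases x with x | x <;> rfl

theorem tgt_fwd1 (hj : j1 ≠ j0) (x : (tr j0 (upd M A)).W) :
    tgt (fwd hj x).1.1 = (tgt x).1.1 := by rcases x with x | x <;> rfl

theorem tgt_fwd2 (hj : j1 ≠ j0) (x : (tr j0 (upd M A)).W) :
    tgt (fwd hj x).1.2 = (tgt x).1.2 := by rcases x with x | x <;> rfl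

/-- The translation commutes with the product update. -/
def trUpd (hj : j1 ≠ j0) (M : EModel Unit ℕ) (A : AModel Unit ℕ) :
    Iso (tr j0 (upd M A)) (upd (tr j0 M) (trA j0 j1 A)) where
  e := {
    toFun := fwd hj
    invFun := bwd hj
    left_inv := by
      rintro (x | x) <;> rfl
    right_inv := by
      rintro ⟨⟨w | w, e | e⟩, h⟩
      · rfl
      · exact (sat_inr_inl _ _ h).elim
      · exact (sat_inl_inr _ _ h).elim
      · rfl }
  R_iff j x y := by
    change trRel j0 j x y ↔ trRel j0 j (fwd hj x).1.1 (fwd hj y).1.1 ∧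
      trRel j0 j (fwd hj x).1.2 (fwd hj y).1.2
    unfold trRel
    split_ifs
    · rw [src_fwd1, src_fwd1, src_fwd2, src_fwd2]
      constructor
      · intro h; rw [h]; exact ⟨rfl, rfl⟩
      · rintro ⟨h1, h2⟩; exact Subtype.ext (Prod.ext h1 h2)
    · rw [tgt_fwd1, tgt_fwd1, tgt_fwd2, tgt_fwd2]
      constructor
      · intro h; rw [h]; exact ⟨rfl, rfl⟩
      · rintro ⟨h1, h2⟩; exact Subtype.ext (Prod.ext h1 h2)
  V_iff p x := by
    rcases x with x | x <;> rfl

/-- The map of `trIso`. -/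
def trMap (h : Iso M N) : (tr j0 M).W → (tr j0 N).W
  | .inl x => .inl (h.e x)
  | .inr x => .inr ⟨(h.e x.1.1, h.e x.1.2), (h.R_iff _ _ _).1 x.2⟩

theorem src_trMap (h : Iso M N) (x : (tr j0 M).W) :
    src (trMap (j0 := j0) h x) = h.e (src x) := by rcases x with x | x <;> rfl

theorem tgt_trMap (h : Iso M N) (x : (tr j0 M).W) :
    tgt (trMap (j0 := j0) h x) = h.e (tgt x) := by rcases x with x | x <;> rfl

/-- The translation preserves isomorphism. -/
def trIso (h : Iso M N) : Iso (tr j0 M) (tr j0 N) where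
  e := {
    toFun := trMap h
    invFun := trMap h.symm
    left_inv := by
      rintro (x | ⟨⟨x, x'⟩, hx⟩)
      · exact congrArg Sum.inl (h.e.symm_apply_apply x)
      · exact congrArg Sum.inr (Subtype.ext (Prod.ext (h.e.symm_apply_apply x)
          (h.e.symm_apply_apply x')))
    right_inv := by
      rintro (x | ⟨⟨x, x'⟩, hx⟩)
      · exact congrArg Sum.inl (h.e.apply_symm_apply x)
      · exact congrArg Sum.inr (Subtype.ext (Prod.ext (h.e.apply_symm_apply x)
          (h.e.apply_symm_apply x'))) }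
  R_iff j x y := by
    change trRel j0 j x y ↔ trRel j0 j (trMap (j0 := j0) h x) (trMap (j0 := j0) h y)
    unfold trRel
    split_ifs
    · rw [src_trMap, src_trMap]; exact h.e.injective.eq_iff.symm
    · rw [tgt_trMap, tgt_trMap]; exact h.e.injective.eq_iff.symm
  V_iff p x := by
    rcases x with x | x
    · change (∃ q, p = q + 1 ∧ M.V q x) ↔ (∃ q, p = q + 1 ∧ N.V q (h.e x))
      constructor
      · rintro ⟨q, h1, h2⟩
        exact ⟨q, h1, (h.V_iff q x).1 h2⟩
      · rintro ⟨q, h1, h2⟩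
        exact ⟨q, h1, (h.V_iff q x).2 h2⟩
    · exact Iff.rfl

/-- Layers of the translation. -/
def trLayer (hj : j1 ≠ j0) (M : EModel Unit ℕ) (A : AModel Unit ℕ) :
    (n : ℕ) → Iso (tr j0 (layer M A n)) (layer (tr j0 M) (trA j0 j1 A) n)
  | 0 => Iso.refl _
  | n + 1 => (trUpd hj (layer M A n) A).trans
      ((trLayer hj M A n).upd ⟨Equiv.refl _, fun _ _ _ => Iff.rfl, fun _ => rfl⟩)

/-- The translation reflects global bisimilarity. -/
theorem trGB (j1 : J) (hj : j1 ≠ j0) (h : GBisim (tr j0 M) (tr j0 N)) : GBisim M N := by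
  obtain ⟨Z, hZ, h1, h2⟩ := h
  refine ⟨fun w v => Z (.inl w) (.inl v), ?_, ?_, ?_⟩
  · intro w v hz
    obtain ⟨a1, a2, a3⟩ := hZ _ _ hz
    refine ⟨?_, ?_, ?_⟩
    · intro p
      have := a1 (p + 1)
      simpa [trVal] using this
    · intro i w' hw
      obtain ⟨y, hy, hz1⟩ := a2 j0 (.inr ⟨(w, w'), hw⟩) (by simp [trRel, src])
      match y, hy, hz1 with
      | .inl y, hy, hz1 =>
        have := (hZ _ _ hz1).1 0
        simp [trVal] at this
      | .inr ⟨(a, b), hab⟩, hy, hz1 =>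
        simp only [trRel, src, if_true] at hy
        subst hy
        obtain ⟨z, hz2, hz3⟩ := (hZ _ _ hz1).2.1 j1 (.inl w') (by simp [trRel, tgt, hj])
        match z, hz2, hz3 with
        | .inr z, hz2, hz3 =>
          have := (hZ _ _ hz3).1 0
          simp [trVal] at this
        | .inl z, hz2, hz3 =>
          simp only [trRel, tgt, if_neg hj] at hz2
          subst hz2
          exact ⟨b, hab, hz3⟩
    · intro i v' hv
      obtain ⟨y, hy, hz1⟩ := a3 j0 (.inr ⟨(v, v'), hv⟩) (by simp [trRel, src])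
      match y, hy, hz1 with
      | .inl y, hy, hz1 =>
        have := (hZ _ _ hz1).1 0
        simp [trVal] at this
      | .inr ⟨(a, b), hab⟩, hy, hz1 =>
        simp only [trRel, src, if_true] at hy
        subst hy
        obtain ⟨z, hz2, hz3⟩ := (hZ _ _ hz1).2.2 j1 (.inl v') (by simp [trRel, tgt, hj])
        match z, hz2, hz3 with
        | .inr z, hz2, hz3 =>
          have := (hZ _ _ hz3).1 0
          simp [trVal] at this
        | .inl z, hz2, hz3 =>
          simp only [trRel, tgt, if_neg hj] at hz2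
          subst hz2
          exact ⟨b, hab, hz3⟩
  · intro w
    obtain ⟨y, hy⟩ := h1 (.inl w)
    match y, hy with
    | .inl y, hy => exact ⟨y, hy⟩
    | .inr y, hy =>
      have := (hZ _ _ hy).1 0
      simp [trVal] at this
  · intro v
    obtain ⟨y, hy⟩ := h2 (.inl v)
    match y, hy with
    | .inl y, hy => exact ⟨y, hy⟩
    | .inr y, hy =>
      have := (hZ _ _ hy).1 0
      simp [trVal] at this

end

end Pool.Agent.R536.UE
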