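import Pool.Agent.R536.UE.Comp

/-!
Finiteness of the update evolution is recursively enumerable.
-/

set_option autoImplicit false

namespace Pool.Agent.R536.UE

open Primrec

/-! ### Truth sets -/

/-- Worlds where an atom holds. -/
def atomSet (m : ModelCode) (p : ℕ) : List ℕ := m.1.filter (fun w => decide ((p, w) ∈ m.2.2))

/-- Complement. -/
def notSet (m : ModelCode) (s : List ℕ) : List ℕ := m.1.filter (fun w => decide (¬ w ∈ s))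

/-- Intersection. -/
def andSet (s s' : List ℕ) : List ℕ := s.filter (fun w => decide (w ∈ s'))

/-- Worlds all of whose successors are in a set. -/
def boxSet (m : ModelCode) (i : ℕ) (s : List ℕ) : List ℕ :=
  m.1.filter (fun w => decide (∀ v ∈ m.1, (i, w, v) ∈ m.2.1 → v ∈ s))

/-- Head of a stack. -/
def hdS (m : ModelCode) (s : List (List ℕ)) : List ℕ := s.head?.getD (atomSet m 0)

/-- One step of the evaluation of a formula in postfix form. -/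
def evStep (a : ℕ) (m : ModelCode) (s : List (List ℕ)) (t : ℕ × ℕ) : List (List ℕ) :=
  if t.1 = 0 then atomSet m t.2 :: s
  else if t.1 = 1 then notSet m (hdS m s) :: s.tail
  else if t.1 = 2 then andSet (hdS m s) (hdS m s.tail) :: s.tail.tail
  else if t.2 < a then boxSet m t.2 (hdS m s) :: s.tail
  else s

/-- The truth set of a formula in postfix form. -/
def ev (a : ℕ) (m : ModelCode) (c : List (ℕ × ℕ)) : List ℕ := hdS m (c.foldl (evStep a m) [])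

/-- `s` is the truth set of `φ`. -/
def IsTruth (a : ℕ) (m : ModelCode) (φ : Form (Fin a) ℕ) (s : List ℕ) : Prop :=
  ∀ w, w ∈ s ↔ ∃ h : w ∈ m.1, (decM a m).sat φ ⟨w, h⟩

section
variable {a : ℕ} {m : ModelCode}

theorem isTruth_atom (p : ℕ) : IsTruth a m (.atom p) (atomSet m p) := by
  intro w
  simp only [atomSet, List.mem_filter, decide_eq_true_eq, EModel.sat, exists_prop]

theorem isTruth_neg {φ : Form (Fin a) ℕ} {s : List ℕ} (h : IsTruth a m φ s) :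
    IsTruth a m (.neg φ) (notSet m s) := by
  intro w
  simp only [notSet, List.mem_filter, decide_eq_true_eq, h w, EModel.sat]
  constructor
  · rintro ⟨h1, h2⟩
    exact ⟨h1, fun h3 => h2 ⟨h1, h3⟩⟩
  · rintro ⟨h1, h2⟩
    exact ⟨h1, fun ⟨_, h3⟩ => h2 h3⟩

theorem isTruth_and {φ ψ : Form (Fin a) ℕ} {s s' : List ℕ} (h : IsTruth a m φ s)
    (h' : IsTruth a m ψ s') : IsTruth a m (.and φ ψ) (andSet s s') := by
  intro w
  simp only [andSet, List.mem_filter, decide_eq_true_eq, h w, h' w, EModel.sat]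
  constructor
  · rintro ⟨⟨h1, h2⟩, _, h3⟩
    exact ⟨h1, h2, h3⟩
  · rintro ⟨h1, h2, h3⟩
    exact ⟨⟨h1, h2⟩, h1, h3⟩

theorem isTruth_K {φ : Form (Fin a) ℕ} {s : List ℕ} (h : IsTruth a m φ s) (i : Fin a) :
    IsTruth a m (.K i φ) (boxSet m i.1 s) := by
  intro w
  simp only [boxSet, List.mem_filter, decide_eq_true_eq, EModel.sat]
  constructor
  · rintro ⟨h1, h2⟩
    refine ⟨h1, ?_⟩
    rintro ⟨v, hv⟩ hR
    obtain ⟨_, h3⟩ := (h v).1 (h2 v hv hR)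
    exact h3
  · rintro ⟨h1, h2⟩
    refine ⟨h1, ?_⟩
    intro v hv hR
    exact (h v).2 ⟨hv, h2 ⟨v, hv⟩ hR⟩

/-- Corresponding stacks. -/
abbrev Stk (a : ℕ) (m : ModelCode) (F : List (Form (Fin a) ℕ)) (S : List (List ℕ)) : Prop :=
  List.Forall₂ (IsTruth a m) F S

theorem Stk.hd {F : List (Form (Fin a) ℕ)} {S : List (List ℕ)} (h : Stk a m F S) :
    IsTruth a m (hdF F) (hdS m S) := by
  cases h with
  | nil => exact isTruth_atom 0
  | cons h1 h2 => exact h1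

theorem Stk.tl {F : List (Form (Fin a) ℕ)} {S : List (List ℕ)} (h : Stk a m F S) :
    Stk a m F.tail S.tail := by
  cases h with
  | nil => exact .nil
  | cons h1 h2 => exact h2

theorem Stk.step {F : List (Form (Fin a) ℕ)} {S : List (List ℕ)} (h : Stk a m F S)
    (t : ℕ × ℕ) : Stk a m (readStep a F t) (evStep a m S t) := by
  unfold readStep evStep
  split_ifs with h1 h2 h3 h4
  · exact .cons (isTruth_atom _) h
  · exact .cons (isTruth_neg h.hd) h.tl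
  · exact .cons (isTruth_and h.hd h.tl.hd) h.tl.tl
  · exact .cons (isTruth_K h.hd ⟨t.2, h4⟩) h.tl
  · exact h

theorem Stk.foldl {F : List (Form (Fin a) ℕ)} {S : List (List ℕ)} (h : Stk a m F S)
    (c : List (ℕ × ℕ)) : Stk a m (c.foldl (readStep a) F) (c.foldl (evStep a m) S) := by
  induction c generalizing F S with
  | nil => exact h
  | cons t c ih => exact ih (h.step t)

theorem mem_ev (c : List (ℕ × ℕ)) (w : ℕ) :
    w ∈ ev a m c ↔ ∃ h : w ∈ m.1, (decM a m).sat (readForm a c) ⟨w, h⟩ :=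
  (Stk.foldl (m := m) (a := a) .nil c).hd w

end

/-! ### The product on codes -/

/-- The product update on codes. -/
def prodC (a : ℕ) (α : ActionCode) (m : ModelCode) : ModelCode :=
  ((List.range α.1.length).flatMap (fun j =>
      (ev a m (α.1.getD j [])).map (fun w => Nat.pair w j)),
    m.2.1.flatMap (fun e => (α.2.filter (fun s => decide (s.1 = e.1))).map
      (fun s => (e.1, Nat.pair e.2.1 s.2.1, Nat.pair e.2.2 s.2.2))),
    m.2.2.flatMap (fun q => (List.range α.1.length).map (fun j => (q.1, Nat.pair q.2 j))))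

section
variable {a : ℕ} {m : ModelCode} {α : ActionCode}

theorem mem_prodC_W {w j : ℕ} :
    Nat.pair w j ∈ (prodC a α m).1 ↔
      ∃ (hj : j < α.1.length) (hw : w ∈ m.1),
        (decM a m).sat ((decA a α).pre ⟨j, hj⟩) ⟨w, hw⟩ := by
  simp only [prodC, List.mem_flatMap, List.mem_range, List.mem_map, Nat.pair_eq_pair, mem_ev]
  constructor
  · rintro ⟨j', hj, w', ⟨hw, hs⟩, rfl, rfl⟩
    refine ⟨hj, hw, ?_⟩
    rw [List.getD_eq_getElem _ _ hj] at hs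
    exact hs
  · rintro ⟨hj, hw, hs⟩
    refine ⟨j, hj, w, ⟨hw, ?_⟩, rfl, rfl⟩
    rw [List.getD_eq_getElem _ _ hj]
    exact hs

theorem mem_prodC_R {i w j v k : ℕ} :
    (i, Nat.pair w j, Nat.pair v k) ∈ (prodC a α m).2.1 ↔
      (i, w, v) ∈ m.2.1 ∧ (i, j, k) ∈ α.2 := by
  simp only [prodC, List.mem_flatMap, List.mem_map, List.mem_filter, decide_eq_true_eq,
    Prod.mk.injEq, Nat.pair_eq_pair]
  constructor
  · rintro ⟨⟨i1, w1, v1⟩, h1, ⟨i2, j2, k2⟩, ⟨h2, h3⟩, h4, ⟨h5, h6⟩, h7, h8⟩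
    simp only at h3 h4 h5 h6 h7 h8
    subst h3 h4 h5 h6 h7 h8
    exact ⟨h1, h2⟩
  · rintro ⟨h1, h2⟩
    exact ⟨_, h1, _, ⟨h2, rfl⟩, rfl, ⟨rfl, rfl⟩, rfl, rfl⟩

theorem mem_prodC_V {p w j : ℕ} :
    (p, Nat.pair w j) ∈ (prodC a α m).2.2 ↔ (p, w) ∈ m.2.2 ∧ j < α.1.length := by
  simp only [prodC, List.mem_flatMap, List.mem_map, List.mem_range,
    Prod.mk.injEq, Nat.pair_eq_pair]
  constructor
  · rintro ⟨⟨p1, w1⟩, h1, j1, h2, h3, h4, h5⟩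
    simp only at h3 h4 h5
    subst h3 h4 h5
    exact ⟨h1, h2⟩
  · rintro ⟨h1, h2⟩
    exact ⟨_, h1, j, h2, rfl, rfl, rfl⟩

theorem prodC_W_form {x : ℕ} (_ : x ∈ (prodC a α m).1) : ∃ w j, x = Nat.pair w j := by
  exact ⟨x.unpair.1, x.unpair.2, (Nat.pair_unpair x).symm⟩

theorem gbisim_prodC :
    GBisim (upd (decM a m) (decA a α)) (decM a (prodC a α m)) := by
  refine ⟨fun x y => y.1 = Nat.pair x.1.1.1 x.1.2.1, ?_, ?_, ?_⟩
  · rintro ⟨⟨⟨w, hw⟩, j⟩, hs⟩ ⟨y, hy⟩ hz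
    change y = Nat.pair w j.1 at hz
    subst hz
    refine ⟨?_, ?_, ?_⟩
    · intro p
      change (p, w) ∈ m.2.2 ↔ (p, Nat.pair w j.1) ∈ (prodC a α m).2.2
      rw [mem_prodC_V]
      exact ⟨fun h => ⟨h, j.2⟩, fun h => h.1⟩
    · rintro i ⟨⟨⟨w', hw'⟩, j'⟩, hs'⟩ ⟨hR, hS⟩
      exact ⟨⟨Nat.pair w' j'.1, mem_prodC_W.2 ⟨j'.2, hw', hs'⟩⟩,
        mem_prodC_R.2 ⟨hR, hS⟩, rfl⟩
    · rintro i ⟨y', hy'⟩ hR
      obtain ⟨w', j', rfl⟩ := prodC_W_form hy'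
      obtain ⟨hj', hw', hs'⟩ := mem_prodC_W.1 hy'
      exact ⟨⟨⟨⟨w', hw'⟩, ⟨j', hj'⟩⟩, hs'⟩, mem_prodC_R.1 hR, rfl⟩
  · rintro ⟨⟨⟨w, hw⟩, j⟩, hs⟩
    exact ⟨⟨Nat.pair w j.1, mem_prodC_W.2 ⟨j.2, hw, hs⟩⟩, rfl⟩
  · rintro ⟨y, hy⟩
    obtain ⟨w, j, rfl⟩ := prodC_W_form hy
    obtain ⟨hj, hw, hs⟩ := mem_prodC_W.1 hy
    exact ⟨⟨⟨⟨w, hw⟩, ⟨j, hj⟩⟩, hs⟩, rfl⟩

theorem gbisim_iter (n : ℕ) :
    GBisim (layer (decM a m) (decA a α) n) (decM a ((prodC a α)^[n] m)) := by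
  induction n with
  | zero => exact GBisim.refl _
  | succ n ih =>
    rw [Function.iterate_succ_apply']
    exact (ih.upd _).trans gbisim_prodC

end

/-! ### Checking bisimulations -/

/-- `Z` codes a bisimulation between two codes which is total on both sides. -/
def Chk (a : ℕ) (m m' : ModelCode) (Z : List (ℕ × ℕ)) : Prop :=
  (∀ z ∈ Z, z.1 ∈ m.1 ∧ z.2 ∈ m'.1 ∧
    (∀ q ∈ m.2.2, q.2 = z.1 → (q.1, z.2) ∈ m'.2.2) ∧
    (∀ q ∈ m'.2.2, q.2 = z.2 → (q.1, z.1) ∈ m.2.2) ∧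
    (∀ e ∈ m.2.1, e.1 < a → e.2.1 = z.1 → e.2.2 ∈ m.1 →
      ∃ v ∈ m'.1, (e.1, z.2, v) ∈ m'.2.1 ∧ (e.2.2, v) ∈ Z) ∧
    (∀ e ∈ m'.2.1, e.1 < a → e.2.1 = z.2 → e.2.2 ∈ m'.1 →
      ∃ v ∈ m.1, (e.1, z.1, v) ∈ m.2.1 ∧ (v, e.2.2) ∈ Z)) ∧
  (∀ w ∈ m.1, ∃ z ∈ Z, z.1 = w) ∧ (∀ w ∈ m'.1, ∃ z ∈ Z, z.2 = w)

theorem chk_iff {a : ℕ} {m m' : ModelCode} :
    (∃ Z, Chk a m m' Z) ↔ GBisim (decM a m) (decM a m') := by
  classical
  constructor
  · rintro ⟨Z, h1, h2, h3⟩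
    refine ⟨fun x y => (x.1, y.1) ∈ Z, ?_, ?_, ?_⟩
    · rintro ⟨w, hw⟩ ⟨v, hv⟩ hz
      obtain ⟨-, -, a1, a2, a3, a4⟩ := h1 _ hz
      refine ⟨?_, ?_, ?_⟩
      · intro p
        exact ⟨fun h => a1 (p, w) h rfl, fun h => a2 (p, v) h rfl⟩
      · rintro i ⟨w', hw'⟩ hR
        obtain ⟨v', hv', h4, h5⟩ := a3 (i.1, w, w') hR i.2 rfl hw'
        exact ⟨⟨v', hv'⟩, h4, h5⟩
      · rintro i ⟨v', hv'⟩ hR
        obtain ⟨w', hw', h4, h5⟩ := a4 (i.1, v, v') hR i.2 rfl hv'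
        exact ⟨⟨w', hw'⟩, h4, h5⟩
    · rintro ⟨w, hw⟩
      obtain ⟨z, hz, rfl⟩ := h2 w hw
      exact ⟨⟨z.2, (h1 z hz).2.1⟩, hz⟩
    · rintro ⟨w, hw⟩
      obtain ⟨z, hz, rfl⟩ := h3 w hw
      exact ⟨⟨z.1, (h1 z hz).1⟩, hz⟩
  · rintro ⟨Z, hZ, h1, h2⟩
    let L : List (ℕ × ℕ) := (m.1 ×ˢ m'.1).filter
      (fun z => decide (∃ (h : z.1 ∈ m.1) (h' : z.2 ∈ m'.1), Z ⟨z.1, h⟩ ⟨z.2, h'⟩))
    have hL : ∀ x y, (x, y) ∈ L ↔ ∃ (h : x ∈ m.1) (h' : y ∈ m'.1), Z ⟨x, h⟩ ⟨y, h'⟩ := by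
      intro x y
      simp only [L, List.mem_filter, decide_eq_true_eq, List.mem_product]
      constructor
      · rintro ⟨-, h⟩; exact h
      · rintro ⟨h, h', hz⟩; exact ⟨⟨h, h'⟩, h, h', hz⟩
    refine ⟨L, ?_, ?_, ?_⟩
    · rintro ⟨x, y⟩ hz
      obtain ⟨hx, hy, hz⟩ := (hL x y).1 hz
      obtain ⟨a1, a2, a3⟩ := hZ _ _ hz
      refine ⟨hx, hy, ?_, ?_, ?_, ?_⟩
      · rintro ⟨p, w⟩ hq hw
        simp only at hw
        subst hw
        exact (a1 p).1 hq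
      · rintro ⟨p, w⟩ hq hw
        simp only at hw
        subst hw
        exact (a1 p).2 hq
      · rintro ⟨i, w, w'⟩ he hi hw hw'
        simp only at hi hw hw'
        subst hw
        obtain ⟨⟨v', hv'⟩, h3, h4⟩ := a2 ⟨i, hi⟩ ⟨w', hw'⟩ he
        exact ⟨v', hv', h3, (hL _ _).2 ⟨hw', hv', h4⟩⟩
      · rintro ⟨i, w, w'⟩ he hi hw hw'
        simp only at hi hw hw'
        subst hw
        obtain ⟨⟨v', hv'⟩, h3, h4⟩ := a3 ⟨i, hi⟩ ⟨w', hw'⟩ he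
        exact ⟨v', hv', h3, (hL _ _).2 ⟨hv', hw', h4⟩⟩
    · intro w hw
      obtain ⟨⟨v, hv⟩, hz⟩ := h1 ⟨w, hw⟩
      exact ⟨(w, v), (hL _ _).2 ⟨hw, hv, hz⟩, rfl⟩
    · intro w hw
      obtain ⟨⟨v, hv⟩, hz⟩ := h2 ⟨w, hw⟩
      exact ⟨(v, w), (hL _ _).2 ⟨hv, hw, hz⟩, rfl⟩

instance finite_decM (a : ℕ) (m : ModelCode) : Finite (decM a m).W :=
  inferInstanceAs (Finite {x : ℕ // x ∈ m.1})

instance finite_decA (a : ℕ) (α : ActionCode) : Finite (decA a α).E :=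
  inferInstanceAs (Finite (Fin _))

theorem finite_iff_chk (a : ℕ) (m : ModelCode) (α : ActionCode) :
    FiniteModBisim (tree (decM a m) (decA a α)) ↔
      ∃ y : ℕ × ℕ × List (ℕ × ℕ),
        Chk a ((prodC a α)^[y.1] m) ((prodC a α)^[y.1 + y.2.1 + 1] m) y.2.2 := by
  rw [finite_iff]
  constructor
  · rintro ⟨n, k, hnk, hg⟩
    obtain ⟨d, rfl⟩ := Nat.exists_eq_add_of_le (Nat.succ_le_of_lt hnk)
    have h2 := ((gbisim_iter n).symm.trans hg).trans (gbisim_iter _)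
    obtain ⟨Z, hZ⟩ := chk_iff.2 h2
    refine ⟨(n, d, Z), ?_⟩
    have e : n + d + 1 = n.succ + d := by omega
    simp only [e]
    exact hZ
  · rintro ⟨⟨n, d, Z⟩, hZ⟩
    refine ⟨n, n + d + 1, by omega, ?_⟩
    exact ((gbisim_iter n).trans (chk_iff.1 ⟨Z, hZ⟩)).trans (gbisim_iter _).symm

end Pool.Agent.R536.UE
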