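import Pool.Agent.R536.UE.Upper

/-!
Finiteness of the update evolution is recursively enumerable: computability.
-/

set_option autoImplicit false

namespace Pool.Agent.R536.UE

open Primrec

section
variable {α : Type} [Primcodable α]

theorem primrec_atomSet {f : α → ModelCode} {g : α → ℕ} (hf : Primrec f) (hg : Primrec g) :
    Primrec (fun x => atomSet (f x) (g x)) := by
  unfold atomSet
  refine primrec_filter (p := fun x w => (g x, w) ∈ (f x).2.2) (fst.comp hf) ?_
  exact primrec_mem ((hg.comp fst).pair snd) (snd.comp (snd.comp (hf.comp fst)))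

theorem primrec_notSet {f : α → ModelCode} {g : α → List ℕ} (hf : Primrec f) (hg : Primrec g) :
    Primrec (fun x => notSet (f x) (g x)) := by
  unfold notSet
  refine primrec_filter (p := fun x w => ¬ w ∈ g x) (fst.comp hf) ?_
  exact (primrec_mem snd (hg.comp fst)).not

theorem primrec_andSet {f g : α → List ℕ} (hf : Primrec f) (hg : Primrec g) :
    Primrec (fun x => andSet (f x) (g x)) := by
  unfold andSet
  refine primrec_filter (p := fun x w => w ∈ g x) hf ?_
  exact primrec_mem snd (hg.comp fst)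

/-- Bounded quantification with parameters. -/
theorem primrec_forall {β : Type} [Primcodable β] {p : α → β → Prop} {f : α → List β}
    (hf : Primrec f) (hp : PrimrecPred (fun q : α × β => p q.1 q.2)) :
    PrimrecPred (fun x => ∀ b ∈ f x, p x b) := by
  have h : PrimrecRel (fun (b : β) (x : α) => p x b) := hp.comp (Primrec.pair snd fst)
  exact h.forall_mem_list.comp hf Primrec.id

/-- Bounded quantification with parameters. -/
theorem primrec_exists {β : Type} [Primcodable β] {p : α → β → Prop} {f : α → List β}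
    (hf : Primrec f) (hp : PrimrecPred (fun q : α × β => p q.1 q.2)) :
    PrimrecPred (fun x => ∃ b ∈ f x, p x b) := by
  have h : PrimrecRel (fun (b : β) (x : α) => p x b) := hp.comp (Primrec.pair snd fst)
  exact h.exists_mem_list.comp hf Primrec.id

theorem primrec_imp {p q : α → Prop} (hp : PrimrecPred p) (hq : PrimrecPred q) :
    PrimrecPred (fun x => p x → q x) :=
  (hp.not.or hq).of_eq fun x => by
    by_cases h : p x <;> simp [h]

theorem primrec_boxSet {f : α → ModelCode} {i : α → ℕ} {g : α → List ℕ} (hf : Primrec f)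
    (hi : Primrec i) (hg : Primrec g) : Primrec (fun x => boxSet (f x) (i x) (g x)) := by
  unfold boxSet
  refine primrec_filter (p := fun x w => ∀ v ∈ (f x).1, (i x, w, v) ∈ (f x).2.1 → v ∈ g x)
    (fst.comp hf) ?_
  refine primrec_forall (p := fun (q : α × ℕ) v => (i q.1, q.2, v) ∈ (f q.1).2.1 → v ∈ g q.1)
    (fst.comp (hf.comp fst)) ?_
  refine primrec_imp ?_ ?_
  · exact primrec_mem ((hi.comp (fst.comp fst)).pair ((snd.comp fst).pair snd))
      (fst.comp (snd.comp (hf.comp (fst.comp fst))))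
  · exact primrec_mem snd (hg.comp (fst.comp fst))

theorem primrec_hdS {f : α → ModelCode} {g : α → List (List ℕ)} (hf : Primrec f)
    (hg : Primrec g) : Primrec (fun x => hdS (f x) (g x)) := by
  unfold hdS
  exact option_getD.comp (list_head?.comp hg) (primrec_atomSet hf (const 0))

theorem primrec_evStep (a : ℕ) {f : α → ModelCode} {s : α → List (List ℕ)} {t : α → ℕ × ℕ}
    (hf : Primrec f) (hs : Primrec s) (ht : Primrec t) :
    Primrec (fun x => evStep a (f x) (s x) (t x)) := by
  unfold evStep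
  have ht1 := fst.comp ht
  have ht2 := snd.comp ht
  refine Primrec.ite (Primrec.eq.comp ht1 (const 0)) ?_ ?_
  · exact list_cons.comp (primrec_atomSet hf ht2) hs
  refine Primrec.ite (Primrec.eq.comp ht1 (const 1)) ?_ ?_
  · exact list_cons.comp (primrec_notSet hf (primrec_hdS hf hs)) (list_tail.comp hs)
  refine Primrec.ite (Primrec.eq.comp ht1 (const 2)) ?_ ?_
  · exact list_cons.comp (primrec_andSet (primrec_hdS hf hs)
      (primrec_hdS hf (list_tail.comp hs))) (list_tail.comp (list_tail.comp hs))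
  refine Primrec.ite (nat_lt.comp ht2 (const a)) ?_ hs
  exact list_cons.comp (primrec_boxSet hf ht2 (primrec_hdS hf hs)) (list_tail.comp hs)

theorem primrec_ev (a : ℕ) {f : α → ModelCode} {c : α → List (ℕ × ℕ)} (hf : Primrec f)
    (hc : Primrec c) : Primrec (fun x => ev a (f x) (c x)) := by
  unfold ev
  refine primrec_hdS hf ?_
  have h : Primrec₂ (fun (x : α) (q : List (List ℕ) × (ℕ × ℕ)) => evStep a (f x) q.1 q.2) :=
    primrec_evStep a (hf.comp fst) (fst.comp snd) (snd.comp snd)
  exact list_foldl hc (const []) h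

theorem primrec_prodC (a : ℕ) {f : α → ModelCode} {g : α → ActionCode} (hf : Primrec f)
    (hg : Primrec g) : Primrec (fun x => prodC a (g x) (f x)) := by
  unfold prodC
  have hlen : Primrec (fun x => List.range (g x).1.length) :=
    list_range.comp (list_length.comp (fst.comp hg))
  refine Primrec.pair ?_ (Primrec.pair ?_ ?_)
  · refine list_flatMap hlen ?_
    refine list_map ?_ ?_
    · exact primrec_ev a (hf.comp fst) ((list_getD []).comp (fst.comp (hg.comp fst)) snd)
    · exact Primrec₂.natPair.comp snd (snd.comp fst)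
  · refine list_flatMap (fst.comp (snd.comp hf)) ?_
    refine list_map (primrec_filter (p := fun (q : α × (ℕ × ℕ × ℕ)) (s : ℕ × ℕ × ℕ) =>
      s.1 = q.2.1) (snd.comp (hg.comp fst)) ?_) ?_
    · exact Primrec.eq.comp (fst.comp snd) (fst.comp (snd.comp fst))
    · exact Primrec.pair (fst.comp (snd.comp fst)) (Primrec.pair
        (Primrec₂.natPair.comp (fst.comp (snd.comp (snd.comp fst))) (fst.comp (snd.comp snd)))
        (Primrec₂.natPair.comp (snd.comp (snd.comp (snd.comp fst))) (snd.comp (snd.comp snd))))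
  · refine list_flatMap (snd.comp (snd.comp hf)) ?_
    refine list_map (hlen.comp fst) ?_
    exact Primrec.pair (fst.comp (snd.comp fst))
      (Primrec₂.natPair.comp (snd.comp (snd.comp fst)) snd)

theorem primrec_iter (a : ℕ) {f : α → ModelCode} {g : α → ActionCode} {n : α → ℕ}
    (hf : Primrec f) (hg : Primrec g) (hn : Primrec n) :
    Primrec (fun x => (prodC a (g x))^[n x] (f x)) :=
  nat_iterate hn hf (primrec_prodC a snd (hg.comp fst)).to₂

theorem primrec_chk (a : ℕ) {f f' : α → ModelCode} {Z : α → List (ℕ × ℕ)}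
    (hf : Primrec f) (hf' : Primrec f') (hZ : Primrec Z) :
    PrimrecPred (fun x => Chk a (f x) (f' x) (Z x)) := by
  unfold Chk
  have fE := fst.comp (snd.comp hf)
  have fE' := fst.comp (snd.comp hf')
  have fV := snd.comp (snd.comp hf)
  have fV' := snd.comp (snd.comp hf')
  refine PrimrecPred.and ?_ (PrimrecPred.and ?_ ?_)
  · refine primrec_forall (p := fun (x : α) (z : ℕ × ℕ) => z.1 ∈ (f x).1 ∧ z.2 ∈ (f' x).1 ∧
      (∀ q ∈ (f x).2.2, q.2 = z.1 → (q.1, z.2) ∈ (f' x).2.2) ∧
      (∀ q ∈ (f' x).2.2, q.2 = z.2 → (q.1, z.1) ∈ (f x).2.2) ∧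
      (∀ e ∈ (f x).2.1, e.1 < a → e.2.1 = z.1 → e.2.2 ∈ (f x).1 →
        ∃ v ∈ (f' x).1, (e.1, z.2, v) ∈ (f' x).2.1 ∧ (e.2.2, v) ∈ Z x) ∧
      (∀ e ∈ (f' x).2.1, e.1 < a → e.2.1 = z.2 → e.2.2 ∈ (f' x).1 →
        ∃ v ∈ (f x).1, (e.1, z.1, v) ∈ (f x).2.1 ∧ (v, e.2.2) ∈ Z x)) hZ ?_
    refine PrimrecPred.and ?_ (PrimrecPred.and ?_ (PrimrecPred.and ?_ (PrimrecPred.and ?_
      (PrimrecPred.and ?_ ?_))))
    · exact primrec_mem (fst.comp snd) (fst.comp (hf.comp fst))
    · exact primrec_mem (snd.comp snd) (fst.comp (hf'.comp fst))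
    · refine primrec_forall (p := fun (y : α × (ℕ × ℕ)) (q : ℕ × ℕ) =>
        q.2 = y.2.1 → (q.1, y.2.2) ∈ (f' y.1).2.2) (fV.comp fst) ?_
      refine primrec_imp ?_ ?_
      · exact Primrec.eq.comp (snd.comp snd) (fst.comp (snd.comp fst))
      · exact primrec_mem (Primrec.pair (fst.comp snd) (snd.comp (snd.comp fst)))
          (fV'.comp (fst.comp fst))
    · refine primrec_forall (p := fun (y : α × (ℕ × ℕ)) (q : ℕ × ℕ) =>
        q.2 = y.2.2 → (q.1, y.2.1) ∈ (f y.1).2.2) (fV'.comp fst) ?_
      refine primrec_imp ?_ ?_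
      · exact Primrec.eq.comp (snd.comp snd) (snd.comp (snd.comp fst))
      · exact primrec_mem (Primrec.pair (fst.comp snd) (fst.comp (snd.comp fst)))
          (fV.comp (fst.comp fst))
    · refine primrec_forall (p := fun (y : α × (ℕ × ℕ)) (e : ℕ × ℕ × ℕ) =>
        e.1 < a → e.2.1 = y.2.1 → e.2.2 ∈ (f y.1).1 →
          ∃ v ∈ (f' y.1).1, (e.1, y.2.2, v) ∈ (f' y.1).2.1 ∧ (e.2.2, v) ∈ Z y.1)
        (fE.comp fst) ?_
      refine primrec_imp ?_ (primrec_imp ?_ (primrec_imp ?_ ?_))
      · exact nat_lt.comp (fst.comp snd) (const a)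
      · exact Primrec.eq.comp (fst.comp (snd.comp snd)) (fst.comp (snd.comp fst))
      · exact primrec_mem (snd.comp (snd.comp snd)) (fst.comp (hf.comp (fst.comp fst)))
      · refine primrec_exists (p := fun (y : (α × (ℕ × ℕ)) × (ℕ × ℕ × ℕ)) (v : ℕ) =>
          (y.2.1, y.1.2.2, v) ∈ (f' y.1.1).2.1 ∧ (y.2.2.2, v) ∈ Z y.1.1)
          (fst.comp (hf'.comp (fst.comp fst))) ?_
        refine PrimrecPred.and ?_ ?_
        · exact primrec_mem (Primrec.pair (fst.comp (snd.comp fst))
            (Primrec.pair (snd.comp (snd.comp (fst.comp fst))) snd))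
            (fE'.comp (fst.comp (fst.comp fst)))
        · exact primrec_mem (Primrec.pair (snd.comp (snd.comp (snd.comp fst))) snd)
            (hZ.comp (fst.comp (fst.comp fst)))
    · refine primrec_forall (p := fun (y : α × (ℕ × ℕ)) (e : ℕ × ℕ × ℕ) =>
        e.1 < a → e.2.1 = y.2.2 → e.2.2 ∈ (f' y.1).1 →
          ∃ v ∈ (f y.1).1, (e.1, y.2.1, v) ∈ (f y.1).2.1 ∧ (v, e.2.2) ∈ Z y.1)
        (fE'.comp fst) ?_
      refine primrec_imp ?_ (primrec_imp ?_ (primrec_imp ?_ ?_))
      · exact nat_lt.comp (fst.comp snd) (const a)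
      · exact Primrec.eq.comp (fst.comp (snd.comp snd)) (snd.comp (snd.comp fst))
      · exact primrec_mem (snd.comp (snd.comp snd)) (fst.comp (hf'.comp (fst.comp fst)))
      · refine primrec_exists (p := fun (y : (α × (ℕ × ℕ)) × (ℕ × ℕ × ℕ)) (v : ℕ) =>
          (y.2.1, y.1.2.1, v) ∈ (f y.1.1).2.1 ∧ (v, y.2.2.2) ∈ Z y.1.1)
          (fst.comp (hf.comp (fst.comp fst))) ?_
        refine PrimrecPred.and ?_ ?_
        · exact primrec_mem (Primrec.pair (fst.comp (snd.comp fst))
            (Primrec.pair (fst.comp (snd.comp (fst.comp fst))) snd))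
            (fE.comp (fst.comp (fst.comp fst)))
        · exact primrec_mem (Primrec.pair snd (snd.comp (snd.comp (snd.comp fst))))
            (hZ.comp (fst.comp (fst.comp fst)))
  · refine primrec_forall (p := fun (x : α) (w : ℕ) => ∃ z ∈ Z x, z.1 = w) (fst.comp hf) ?_
    refine primrec_exists (p := fun (y : α × ℕ) (z : ℕ × ℕ) => z.1 = y.2) (hZ.comp fst) ?_
    exact Primrec.eq.comp (fst.comp snd) (snd.comp fst)
  · refine primrec_forall (p := fun (x : α) (w : ℕ) => ∃ z ∈ Z x, z.2 = w) (fst.comp hf') ?_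
    refine primrec_exists (p := fun (y : α × ℕ) (z : ℕ × ℕ) => z.2 = y.2) (hZ.comp fst) ?_
    exact Primrec.eq.comp (snd.comp snd) (snd.comp fst)

end

/-- Projections of computable predicates are recursively enumerable. -/
theorem re_exists {α β : Type} [Primcodable α] [Primcodable β] {R : α → β → Prop}
    (hR : ComputablePred (fun q : α × β => R q.1 q.2)) : REPred (fun x => ∃ y, R x y) := by
  classical
  obtain ⟨hd, hc⟩ := hR
  have h1 : Computable₂ (fun (x : α) (n : ℕ) => (Encodable.decode (α := β) n).bind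
      (fun y => if R x y then some () else none)) := by
    refine Computable.option_bind (Computable.decode.comp Computable.snd) ?_
    have h2 : Computable (fun q : (α × ℕ) × β => decide (R q.1.1 q.2)) :=
      (hc.comp (Computable.pair (Computable.fst.comp Computable.fst) Computable.snd)).of_eq
        (fun q => by simp)
    refine (Computable.cond h2 (Computable.const (some ())) (Computable.const none)).of_eq ?_
    rintro ⟨⟨x, n⟩, y⟩
    by_cases h : R x y <;> simp [h]
  have h2 := (Partrec.rfindOpt h1).dom_re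
  refine h2.of_eq ?_
  intro x
  rw [Nat.rfindOpt_dom]
  constructor
  · rintro ⟨n, u, hu⟩
    simp only [Option.mem_def, Option.bind_eq_some_iff] at hu
    obtain ⟨y, -, hy⟩ := hu
    refine ⟨y, ?_⟩
    by_contra h
    simp [h] at hy
  · rintro ⟨y, hy⟩
    refine ⟨Encodable.encode y, (), ?_⟩
    simp [hy]

/-- Finiteness of the update evolution modulo bisimulation is recursively enumerable. -/
theorem finite_re (a : ℕ) : REPred (fun x : ModelCode × ActionCode =>
    FiniteModBisim (tree (decM a x.1) (decA a x.2))) := by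
  have h : PrimrecPred (fun q : (ModelCode × ActionCode) × (ℕ × ℕ × List (ℕ × ℕ)) =>
      Chk a ((prodC a q.1.2)^[q.2.1] q.1.1)
        ((prodC a q.1.2)^[q.2.1 + q.2.2.1 + 1] q.1.1) q.2.2.2) := by
    refine primrec_chk a ?_ ?_ (snd.comp (snd.comp snd))
    · exact primrec_iter a (fst.comp fst) (snd.comp fst) (fst.comp snd)
    · exact primrec_iter a (fst.comp fst) (snd.comp fst)
        (succ.comp (nat_add.comp (fst.comp snd) (fst.comp (snd.comp snd))))
  refine (re_exists (R := fun (x : ModelCode × ActionCode) (y : ℕ × ℕ × List (ℕ × ℕ)) =>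
    Chk a ((prodC a x.2)^[y.1] x.1) ((prodC a x.2)^[y.1 + y.2.1 + 1] x.1) y.2.2)
    h.computablePred).of_eq ?_
  intro x
  exact (finite_iff_chk a x.1 x.2).symm

end Pool.Agent.R536.UE
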